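import Mathlib

/-!
# MP_8ae0c1_ag, T8: the contradiction between even and odd heights

`a i q` is the sum of `q ^ dim M` over the Manin components of height `i`. If there is one of
dimension at least `i + 1` for every even `i`, and if all of them have dimension at most `i` for
every odd `i`, then `(a 1 q + ... + a d q) / q ^ d` does not converge to a positive real number,
for all large `q`.
-/

set_option autoImplicit false

open Filter Topology
open scoped ENNReal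

namespace Pool.Agent.Lib.MP_8ae0c1_ag

theorem asym_term {a : ℕ → ℝ≥0∞} {q C : ℝ} (hq : 1 < q) (hC : 0 ≤ C)
    (h : Tendsto (fun d : ℕ => (∑ i ∈ Finset.Icc 1 d, a i) / ENNReal.ofReal (q ^ d)) atTop
      (𝓝 (ENNReal.ofReal C))) :
    (∀ i, 1 ≤ i → a i ≠ ⊤) ∧
      Tendsto (fun d : ℕ => (a (d + 1)).toReal / q ^ (d + 1)) atTop (𝓝 (C * (1 - 1 / q))) := by
  have hq0 : 0 < q := by linarith
  have hev : ∀ᶠ d : ℕ in atTop,
      (∑ i ∈ Finset.Icc 1 d, a i) / ENNReal.ofReal (q ^ d) ≠ ⊤ := by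
    have h1 : ∀ᶠ x : ℝ≥0∞ in 𝓝 (ENNReal.ofReal C), x ≠ ⊤ :=
      isOpen_ne.mem_nhds ENNReal.ofReal_ne_top
    exact h.eventually h1
  have hfin : ∀ d : ℕ, (∑ i ∈ Finset.Icc 1 d, a i) ≠ ⊤ := by
    intro d
    obtain ⟨N, hN⟩ := eventually_atTop.1 hev
    have h1 := hN (max d N) (le_max_right _ _)
    have h2 : (∑ i ∈ Finset.Icc 1 (max d N), a i) ≠ ⊤ := by
      intro htop
      rw [htop] at h1
      exact h1 (ENNReal.top_div_of_ne_top ENNReal.ofReal_ne_top)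
    refine ne_top_of_le_ne_top h2 ?_
    exact Finset.sum_le_sum_of_subset (Finset.Icc_subset_Icc_right (le_max_left _ _))
  have hai : ∀ i, 1 ≤ i → a i ≠ ⊤ := by
    intro i hi
    refine ne_top_of_le_ne_top (hfin i) ?_
    exact Finset.single_le_sum (f := a) (fun _ _ => zero_le) (Finset.mem_Icc.2 ⟨hi, le_rfl⟩)
  refine ⟨hai, ?_⟩
  have hs : Tendsto (fun d : ℕ => (∑ i ∈ Finset.Icc 1 d, a i).toReal / q ^ d) atTop (𝓝 C) := by
    have h1 := (ENNReal.tendsto_toReal ENNReal.ofReal_ne_top).comp h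
    rw [ENNReal.toReal_ofReal hC] at h1
    refine h1.congr ?_
    intro d
    simp only [Function.comp_apply, ENNReal.toReal_div]
    rw [ENNReal.toReal_ofReal (by positivity)]
  have hs1 : Tendsto (fun d : ℕ => (∑ i ∈ Finset.Icc 1 (d + 1), a i).toReal / q ^ (d + 1)) atTop
      (𝓝 C) := (tendsto_add_atTop_iff_nat 1).2 hs
  have hs2 : Tendsto (fun d : ℕ => (∑ i ∈ Finset.Icc 1 (d + 1), a i).toReal / q ^ (d + 1) -
      (∑ i ∈ Finset.Icc 1 d, a i).toReal / q ^ d * (1 / q)) atTop (𝓝 (C - C * (1 / q))) :=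
    hs1.sub (hs.mul_const _)
  have hC' : C * (1 - 1 / q) = C - C * (1 / q) := by ring
  rw [hC']
  refine hs2.congr ?_
  intro d
  have h1 : (∑ i ∈ Finset.Icc 1 (d + 1), a i) = (∑ i ∈ Finset.Icc 1 d, a i) + a (d + 1) := by
    rw [Finset.sum_Icc_succ_top (by omega)]
  rw [h1, ENNReal.toReal_add (hfin d) (hai (d + 1) (by omega))]
  have hqd : q ^ d ≠ 0 := by positivity
  have hqne : q ≠ 0 := hq0.ne'
  field_simp
  ring

/-- The asymptotics fails for all large `q` and all nonnegative constants. -/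
theorem asym_bad_nonneg (a : ℕ → ℝ → ℝ≥0∞)
    (hE : ∀ k, 1 ≤ k → ∀ q : ℝ, 1 < q → ENNReal.ofReal (q ^ (2 * k + 1)) ≤ a (2 * k) q)
    (hO : ∀ (k : ℕ) (q q' : ℝ), 1 < q → q ≤ q' →
      a (2 * k + 1) q' / ENNReal.ofReal (q' ^ (2 * k + 1)) ≤
        a (2 * k + 1) q / ENNReal.ofReal (q ^ (2 * k + 1))) :
    ∃ Q : ℝ, 1 < Q ∧ ∀ q : ℝ, Q ≤ q → ∀ C : ℝ, 0 ≤ C →
      ¬ Tendsto (fun d : ℕ => (∑ i ∈ Finset.Icc 1 d, a i q) / ENNReal.ofReal (q ^ d)) atTop
        (𝓝 (ENNReal.ofReal C)) := by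
  by_cases hgood : ∃ q₀ : ℝ, 1 < q₀ ∧ ∃ C₀ : ℝ, 0 ≤ C₀ ∧
      Tendsto (fun d : ℕ => (∑ i ∈ Finset.Icc 1 d, a i q₀) / ENNReal.ofReal (q₀ ^ d)) atTop
        (𝓝 (ENNReal.ofReal C₀))
  · obtain ⟨q₀, hq₀, C₀, hC₀, h₀⟩ := hgood
    obtain ⟨hf₀, hl₀⟩ := asym_term hq₀ hC₀ h₀
    refine ⟨max (C₀ * (1 - 1 / q₀)) q₀ + 1, ?_, ?_⟩
    · have := le_max_right (C₀ * (1 - 1 / q₀)) q₀
      linarith
    intro q hq C hC h
    have hqq : q₀ ≤ q := by
      have := le_max_right (C₀ * (1 - 1 / q₀)) q₀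
      linarith
    have hq1 : 1 < q := by linarith
    have hLq : C₀ * (1 - 1 / q₀) < q := by
      have := le_max_left (C₀ * (1 - 1 / q₀)) q₀
      linarith
    obtain ⟨hf, hl⟩ := asym_term hq1 hC h
    -- even heights
    have hev : q ≤ C * (1 - 1 / q) := by
      have h1 : Tendsto (fun k : ℕ => (a (2 * k + 1 + 1) q).toReal / q ^ (2 * k + 1 + 1)) atTop
          (𝓝 (C * (1 - 1 / q))) := by
        refine hl.comp (tendsto_atTop_mono (fun k : ℕ => ?_) tendsto_id)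
        simp only [id]
        omega
      refine ge_of_tendsto h1 (Eventually.of_forall fun k => ?_)
      have h2 := hE (k + 1) (by omega) q hq1
      have h3 : 2 * (k + 1) = 2 * k + 1 + 1 := by ring
      rw [h3] at h2
      have h4 : q ^ (2 * k + 1 + 1 + 1) ≤ (a (2 * k + 1 + 1) q).toReal := by
        rw [← ENNReal.toReal_ofReal (show 0 ≤ q ^ (2 * k + 1 + 1 + 1) by positivity)]
        exact ENNReal.toReal_mono (hf _ (by omega)) h2
      rw [le_div_iff₀ (by positivity)]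
      calc q * q ^ (2 * k + 1 + 1) = q ^ (2 * k + 1 + 1 + 1) := by ring
        _ ≤ _ := h4
    -- odd heights
    have hod : C * (1 - 1 / q) ≤ C₀ * (1 - 1 / q₀) := by
      have h1 : Tendsto (fun k : ℕ => (a (2 * k + 1) q).toReal / q ^ (2 * k + 1)) atTop
          (𝓝 (C * (1 - 1 / q))) := by
        refine hl.comp (tendsto_atTop_mono (fun k : ℕ => ?_) tendsto_id)
        simp only [id]
        omega
      have h2 : Tendsto (fun k : ℕ => (a (2 * k + 1) q₀).toReal / q₀ ^ (2 * k + 1)) atTop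
          (𝓝 (C₀ * (1 - 1 / q₀))) := by
        refine hl₀.comp (tendsto_atTop_mono (fun k : ℕ => ?_) tendsto_id)
        simp only [id]
        omega
      refine le_of_tendsto_of_tendsto' h1 h2 fun k => ?_
      have h3 := hO k q₀ q hq₀ hqq
      have h4 : a (2 * k + 1) q₀ / ENNReal.ofReal (q₀ ^ (2 * k + 1)) ≠ ⊤ := by
        refine ENNReal.div_ne_top (hf₀ _ (by omega)) ?_
        rw [ne_eq, ENNReal.ofReal_eq_zero, not_le]
        positivity
      have h5 := ENNReal.toReal_mono h4 h3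
      rw [ENNReal.toReal_div, ENNReal.toReal_div, ENNReal.toReal_ofReal (by positivity),
        ENNReal.toReal_ofReal (by positivity)] at h5
      exact h5
    linarith
  · refine ⟨2, by norm_num, ?_⟩
    intro q hq C hC h
    exact hgood ⟨q, by linarith, C, hC, h⟩

theorem ofReal_max_zero (C : ℝ) : ENNReal.ofReal (max C 0) = ENNReal.ofReal C := by
  rcases le_total C 0 with h | h
  · rw [max_eq_right h, ENNReal.ofReal_zero, ENNReal.ofReal_of_nonpos h]
  · rw [max_eq_left h]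

/-- The ratio converges to no real number, for all large `q`. -/
theorem asym_bad (a : ℕ → ℝ → ℝ≥0∞)
    (hE : ∀ k, 1 ≤ k → ∀ q : ℝ, 1 < q → ENNReal.ofReal (q ^ (2 * k + 1)) ≤ a (2 * k) q)
    (hO : ∀ (k : ℕ) (q q' : ℝ), 1 < q → q ≤ q' →
      a (2 * k + 1) q' / ENNReal.ofReal (q' ^ (2 * k + 1)) ≤
        a (2 * k + 1) q / ENNReal.ofReal (q ^ (2 * k + 1))) :
    ∃ Q : ℝ, 1 < Q ∧ ∀ q : ℝ, Q ≤ q → ¬ ∃ C : ℝ,
      Tendsto (fun d : ℕ => (∑ i ∈ Finset.Icc 1 d, a i q) / ENNReal.ofReal (q ^ d)) atTop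
        (𝓝 (ENNReal.ofReal C)) := by
  obtain ⟨Q, hQ1, hQ⟩ := asym_bad_nonneg a hE hO
  refine ⟨Q, hQ1, fun q hq => ?_⟩
  rintro ⟨C, h⟩
  rw [← ofReal_max_zero] at h
  exact hQ q hq (max C 0) (le_max_right _ _) h

end Pool.Agent.Lib.MP_8ae0c1_ag
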