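import Pool.Agent.Lib.MP_8ae0c1_ag.Mord

/-!
# Parity of the height of a section with values in a rational subfield
-/

set_option autoImplicit false

namespace Pool.Agent.Lib.MP_8ae0c1_ag

open Polynomial EllFF

section Par

variable {Ω : Type} [Field Ω] [IsAlgClosed Ω] [CharZero Ω] {l : Ω} [Leg l]

theorem par_aeval_ne {ξ : KL l} (hξ : ∀ a : Ω, ξ ≠ algebraMap Ω (KL l) a) {p : Polynomial Ω} (hp : p ≠ 0) :
    aeval ξ p ≠ 0 := by
  intro h
  obtain ⟨a, ha⟩ := const_of_algebraic (f := ξ) ⟨p, hp, h⟩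
  exact hξ a ha

theorem par_nonneg (P : Place l) {ξ : KL l} (h : OrdGe P 0 ξ) (p : Polynomial Ω) : OrdGe P 0 (aeval ξ p) := by
  induction p using Polynomial.induction_on' with
  | add p q hp hq =>
    rw [map_add]
    exact hp.add hq
  | monomial n a =>
    rw [aeval_monomial]
    have h1 : OrdGe P 0 (ξ ^ n) := by
      induction n with
      | zero =>
        rw [pow_zero]
        exact Or.inr (ord_one P).ge
      | succ n ih =>
        rw [pow_succ]
        simpa using ih.mul h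
    simpa using (OrdGe.const P a).mul h1

theorem par_ordGe (P : Place l) {ξ : KL l} (h : ord P ξ ≤ 0) (p : Polynomial Ω) (k : ℕ) (hk : p.natDegree ≤ k) :
    OrdGe P (k * ord P ξ) (aeval ξ p) := by
  rw [aeval_eq_sum_range' (n := k + 1) (by omega)]
  apply OrdGe.sum
  intro i hi
  apply OrdGe.smul
  right
  rw [ord_pow]
  have h1 : (i : ℤ) ≤ k := by
    rw [Finset.mem_range] at hi
    omega
  nlinarith

theorem par_ord (P : Place l) {ξ : KL l} (h : ord P ξ < 0) {p : Polynomial Ω} (hp : p ≠ 0) :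
    ord P (aeval ξ p) = p.natDegree * ord P ξ := by
  have h0 : ξ ≠ 0 := by
    rintro rfl
    rw [ord_zero] at h
    omega
  have h1 : aeval ξ p = algebraMap Ω (KL l) p.leadingCoeff * ξ ^ p.natDegree + aeval ξ p.eraseLead := by
    conv_lhs => rw [← p.eraseLead_add_C_mul_X_pow]
    rw [map_add, map_mul, map_pow, aeval_X, aeval_C, add_comm]
  have hlc : algebraMap Ω (KL l) p.leadingCoeff ≠ 0 := by
    rw [Ne, FaithfulSMul.algebraMap_eq_zero_iff]
    exact leadingCoeff_ne_zero.2 hp
  have h2 : ord P (algebraMap Ω (KL l) p.leadingCoeff * ξ ^ p.natDegree) = p.natDegree * ord P ξ := by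
    rw [ord_mul P hlc (pow_ne_zero _ h0), ord_const, ord_pow, zero_add]
  rw [h1, ← h2]
  by_cases hn : p.natDegree = 0
  · have h3 : p.eraseLead = 0 := by
      rw [eq_C_of_natDegree_eq_zero hn, eraseLead_C]
    rw [h3, map_zero, add_zero]
  · refine (ord_add_eq P (mul_ne_zero hlc (pow_ne_zero _ h0)) ?_).2
    rw [h2]
    refine (par_ordGe P h.le p.eraseLead (p.natDegree - 1) p.eraseLead_natDegree_le).mono ?_
    have h4 : ((p.natDegree - 1 : ℕ) : ℤ) = p.natDegree - 1 := by
      rw [Nat.cast_sub (by omega)]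
      rfl
    rw [h4]
    nlinarith

/-- The least order of coprime polynomials in `ξ`. -/
theorem par_mord {ξ : KL l} (hξ : ∀ a : Ω, ξ ≠ algebraMap Ω (KL l) a) (B C : Fin 3 → Polynomial Ω)
    (hBC : ∑ i, C i * B i = 1) :
    ∃ m : ℕ, ∀ P : Place l, mord P (fun i => aeval ξ (B i)) = -((m : ℤ) * max 0 (-ord P ξ)) := by
  classical
  have hB : ∃ i, B i ≠ 0 := by
    by_contra hne
    push Not at hne
    rw [Finset.sum_eq_zero fun i _ => by rw [hne i, mul_zero]] at hBC
    exact zero_ne_one hBC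
  obtain ⟨i1, hi1⟩ := hB
  obtain ⟨i0, hi0, hmax⟩ := Finset.exists_max_image (Finset.univ.filter fun i => B i ≠ 0)
    (fun i => (B i).natDegree) ⟨i1, by simp [hi1]⟩
  rw [Finset.mem_filter] at hi0
  have hle : ∀ i, (B i).natDegree ≤ (B i0).natDegree := by
    intro i
    by_cases hi : B i = 0
    · rw [hi, natDegree_zero]
      exact Nat.zero_le _
    · exact hmax i (by simp [hi])
  have hv : (fun i => aeval ξ (B i)) ≠ (0 : Fin 3 → K l) :=
    Function.ne_iff.2 ⟨i0, par_aeval_ne hξ hi0.2⟩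
  have hξ0 : ξ ≠ 0 := by
    intro h
    exact hξ 0 (by rw [h, map_zero])
  refine ⟨(B i0).natDegree, fun P => ?_⟩
  by_cases hP : 0 ≤ ord P ξ
  · rw [max_eq_left (by omega), mul_zero, neg_zero]
    apply le_antisymm
    · by_contra hlt
      push Not at hlt
      have h1 : ∀ i, OrdGe P 1 (aeval ξ (B i)) := (le_mord_iff P hv 1).1 (by omega)
      have h2 : OrdGe P 1 (aeval ξ (∑ i, C i * B i)) := by
        rw [map_sum]
        apply OrdGe.sum
        intro i _
        rw [map_mul]
        simpa using (par_nonneg P (Or.inr hP) (C i)).mul (h1 i)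
      rw [hBC, map_one] at h2
      have h3 := h2.le one_ne_zero
      rw [ord_one] at h3
      omega
    · rw [le_mord_iff P hv]
      exact fun i => par_nonneg P (Or.inr hP) (B i)
  · push Not at hP
    rw [max_eq_right (by omega), mul_neg, neg_neg]
    apply le_antisymm
    · rw [← par_ord P hP hi0.2]
      exact (mord_ordGe P hv i0).le (par_aeval_ne hξ hi0.2)
    · rw [le_mord_iff P hv]
      exact fun i => par_ordGe P hP.le (B i) _ (hle i)

/-- A point with ratios in `Ω(ξ)` is given by coprime polynomials in `ξ`. -/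
theorem par_rep {ξ : KL l} (hξ : ∀ a : Ω, ξ ≠ algebraMap Ω (KL l) a) (v : Fin 3 → KL l) (j : Fin 3)
    (hj : v j ≠ 0) (hM : ∀ i, v i / v j ∈ IntermediateField.adjoin Ω {ξ}) :
    ∃ (g : KL l) (B C : Fin 3 → Polynomial Ω), g ≠ 0 ∧ (∀ i, v i = g * aeval ξ (B i)) ∧ ∑ i, C i * B i = 1 := by
  classical
  have h1 : ∀ i, ∃ r s : Polynomial Ω, s ≠ 0 ∧ v i / v j = aeval ξ r / aeval ξ s := by
    intro i
    obtain ⟨r, s, hrs⟩ := (IntermediateField.mem_adjoin_simple_iff Ω _).1 (hM i)
    by_cases hs : s = 0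
    · refine ⟨0, 1, one_ne_zero, ?_⟩
      rw [hrs, hs, map_zero, div_zero, zero_div]
    · exact ⟨r, s, hs, hrs⟩
  choose r s hs hrs using h1
  have hq : (∏ k, s k) ≠ 0 := Finset.prod_ne_zero_iff.2 fun k _ => hs k
  have hq' : aeval ξ (∏ k, s k) ≠ 0 := par_aeval_ne hξ hq
  have h2 : ∀ i, v i = v j / aeval ξ (∏ k, s k) * aeval ξ (r i * ∏ k ∈ Finset.univ.erase i, s k) := by
    intro i
    have h3 : aeval ξ (s i) ≠ 0 := par_aeval_ne hξ (hs i)
    have h4 := hrs i
    rw [div_eq_div_iff hj h3] at h4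
    have h5 : aeval ξ (∏ k, s k) = aeval ξ (s i) * aeval ξ (∏ k ∈ Finset.univ.erase i, s k) := by
      rw [← map_mul, Finset.mul_prod_erase _ _ (Finset.mem_univ i)]
    rw [div_mul_eq_mul_div, eq_div_iff hq', map_mul, h5]
    linear_combination h4 * aeval ξ (∏ k ∈ Finset.univ.erase i, s k)
  set A : Fin 3 → Polynomial Ω := fun i => r i * ∏ k ∈ Finset.univ.erase i, s k with hA
  have hAj : A j ≠ 0 := by
    intro h0
    have h3 := h2 j
    change v j = _ * aeval ξ (A j) at h3
    rw [h0, map_zero, mul_zero] at h3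
    exact hj h3
  obtain ⟨G, hG⟩ := (IsPrincipalIdealRing.principal (Ideal.span (Set.range A))).principal
  rw [Ideal.submodule_span_eq] at hG
  have h6 : ∀ i, ∃ b, A i = G * b := by
    intro i
    have h7 : A i ∈ Ideal.span {G} := by
      rw [← hG]
      exact Ideal.subset_span ⟨i, rfl⟩
    rwa [Ideal.mem_span_singleton] at h7
  choose B hB using h6
  have hG0 : G ≠ 0 := by
    rintro rfl
    exact hAj (by rw [hB j, zero_mul])
  have h8 : G ∈ Ideal.span (Set.range A) := by
    rw [hG]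
    exact Ideal.mem_span_singleton_self G
  rw [Ideal.mem_span_range_iff_exists_fun] at h8
  obtain ⟨C, hC⟩ := h8
  refine ⟨v j / aeval ξ (∏ k, s k) * aeval ξ G, B, C, ?_, ?_, ?_⟩
  · exact mul_ne_zero (div_ne_zero hj hq') (par_aeval_ne hξ hG0)
  · intro i
    rw [mul_assoc, ← map_mul, ← hB i]
    exact h2 i
  · apply mul_left_cancel₀ hG0
    rw [Finset.mul_sum, mul_one]
    conv_rhs => rw [← hC]
    refine Finset.sum_congr rfl fun i _ => ?_
    rw [hB i]
    ring

theorem par_supp {ξ : KL l} (hξ : ξ ≠ 0) : (Function.support fun P : Place l => max 0 (-ord P ξ)).Finite := by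
  refine (ord_support hξ).subset fun P hP => ?_
  rw [Function.mem_support] at hP ⊢
  intro h0
  rw [h0] at hP
  simp at hP

/-- The height is a multiple of the number of poles of `ξ`. -/
theorem par_height {ξ : KL l} (hξ : ∀ a : Ω, ξ ≠ algebraMap Ω (KL l) a) (v : Fin 3 → KL l) (j : Fin 3)
    (hj : v j ≠ 0) (hM : ∀ i, v i / v j ∈ IntermediateField.adjoin Ω {ξ}) :
    ∃ m : ℤ, ∑ᶠ P : Place l, mord P v = -(m * npoles ξ) := by
  obtain ⟨g, B, C, hg, hv, hBC⟩ := par_rep hξ v j hj hM
  obtain ⟨m, hm⟩ := par_mord hξ B C hBC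
  have hξ0 : ξ ≠ 0 := by
    intro h
    exact hξ 0 (by rw [h, map_zero])
  have hvB : (fun i => aeval ξ (B i)) ≠ (0 : Fin 3 → K l) := by
    intro h0
    have h1 := congrFun h0 j
    simp only [Pi.zero_apply] at h1
    exact hj (by rw [hv j, h1, mul_zero])
  have hvg : v = g • (fun i => aeval ξ (B i)) := by
    funext i
    rw [Pi.smul_apply, smul_eq_mul]
    exact hv i
  refine ⟨m, ?_⟩
  have h1 : ∀ P : Place l, mord P v = ord P g + (-(m : ℤ)) * max 0 (-ord P ξ) := by
    intro P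
    rw [hvg, mord_smul P hvB hg, hm P]
    ring
  rw [finsum_congr h1, finsum_add_distrib (ord_support hg), ord_sum hg, ← mul_finsum, npoles]
  · ring
  · refine (par_supp hξ0).subset fun P hP => ?_
    rw [Function.mem_support] at hP ⊢
    intro h0
    rw [h0, mul_zero] at hP
    exact hP rfl

/-- If the number of poles of `ξ` is odd, then every value is taken with odd multiplicity at some place. -/
theorem par_odd_zero {ξ : KL l} (hξ : ∀ a : Ω, ξ ≠ algebraMap Ω (KL l) a) (hn : Odd (npoles ξ)) (c : Ω) :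
    ∃ P : Place l, 0 < ord P (ξ - algebraMap Ω (KL l) c) ∧ Odd (ord P (ξ - algebraMap Ω (KL l) c)) := by
  by_contra hne
  push Not at hne
  have hξ0 : ξ ≠ 0 := by
    intro h
    exact hξ 0 (by rw [h, map_zero])
  have hξc : ξ - algebraMap Ω (KL l) c ≠ 0 := sub_ne_zero.2 (hξ c)
  have h1 : ∀ P : Place l, ord P (ξ - algebraMap Ω (KL l) c) =
      2 * (max 0 (ord P (ξ - algebraMap Ω (KL l) c)) / 2) + (-1) * max 0 (-ord P ξ) := by
    intro P
    have h2 : max 0 (-ord P ξ) = max 0 (-ord P (ξ - algebraMap Ω (KL l) c)) := by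
      by_cases hP : 0 ≤ ord P ξ
      · have h3 : OrdGe P 0 (ξ - algebraMap Ω (KL l) c) := OrdGe.sub (Or.inr hP) (OrdGe.const P c)
        have h4 := h3.le hξc
        rw [max_eq_left (by omega), max_eq_left (by omega)]
      · push Not at hP
        have h3 : OrdGe P (ord P ξ + 1) (-algebraMap Ω (KL l) c) := ((OrdGe.const P c).neg).mono (by omega)
        have h4 := (ord_add_eq P hξ0 h3).2
        rw [← sub_eq_add_neg] at h4
        rw [h4]
    rw [h2]
    rcases lt_or_ge 0 (ord P (ξ - algebraMap Ω (KL l) c)) with h5 | h5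
    · have h6 := hne P h5
      rw [Int.not_odd_iff_even] at h6
      obtain ⟨k, hk⟩ := h6
      rw [max_eq_right (by omega), max_eq_left (by omega)]
      omega
    · rw [max_eq_left h5, max_eq_right (by omega)]
      omega
  have hs : (Function.support fun P : Place l => max 0 (ord P (ξ - algebraMap Ω (KL l) c)) / 2).Finite := by
    refine (ord_support hξc).subset fun P hP => ?_
    rw [Function.mem_support] at hP ⊢
    intro h0
    rw [h0] at hP
    simp at hP
  have h7 := ord_sum hξc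
  rw [finsum_congr h1, finsum_add_distrib, ← mul_finsum, ← mul_finsum] at h7
  · have h8 : npoles ξ = 2 * ∑ᶠ P : Place l, max 0 (ord P (ξ - algebraMap Ω (KL l) c)) / 2 := by
      rw [npoles]
      linarith
    rw [h8] at hn
    exact (Int.not_odd_iff_even.2 (even_two_mul _)) hn
  · refine hs.subset fun P hP => ?_
    rw [Function.mem_support] at hP ⊢
    intro h0
    rw [h0, mul_zero] at hP
    exact hP rfl
  · refine (par_supp hξ0).subset fun P hP => ?_
    rw [Function.mem_support] at hP ⊢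
    intro h0
    rw [h0, mul_zero] at hP
    exact hP rfl

/-- A polynomial in `ξ` with even orders is a square. -/
theorem par_square {ξ : KL l} (hξ : ∀ a : Ω, ξ ≠ algebraMap Ω (KL l) a) (hn : Odd (npoles ξ)) (n : ℕ) :
    ∀ r : Polynomial Ω, r ≠ 0 → r.natDegree ≤ n → (∀ P : Place l, Even (ord P (aeval ξ r))) → ∃ s : Polynomial Ω, r = s ^ 2 := by
  induction n using Nat.strong_induction_on with
  | _ n ih =>
    intro r hr hrn hP
    by_cases h0 : r.natDegree = 0
    · obtain ⟨c, hc⟩ := IsAlgClosed.exists_pow_nat_eq (r.coeff 0) (n := 2) two_pos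
      refine ⟨C c, ?_⟩
      rw [← C_pow, hc]
      exact eq_C_of_natDegree_eq_zero h0
    have hdeg : r.degree ≠ 0 := fun h => h0 (natDegree_eq_of_degree_eq_some h)
    obtain ⟨c, hc⟩ := IsAlgClosed.exists_root r hdeg
    obtain ⟨P, hP1, hP2⟩ := par_odd_zero hξ hn c
    obtain ⟨r1, hr1⟩ := dvd_iff_isRoot.2 hc
    have hξc : ξ - algebraMap Ω (KL l) c ≠ 0 := sub_ne_zero.2 (hξ c)
    have hr10 : r1 ≠ 0 := by
      rintro rfl
      rw [mul_zero] at hr1
      exact hr hr1
    have e1 : aeval ξ (X - C c : Polynomial Ω) = ξ - algebraMap Ω (KL l) c := by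
      rw [map_sub, aeval_X, aeval_C]
    have hξP : OrdGe P 0 ξ := by
      have h1 : OrdGe P 0 (ξ - algebraMap Ω (KL l) c) := Or.inr hP1.le
      simpa using h1.add (OrdGe.const P c)
    have hr1c : r1.eval c = 0 := by
      by_contra hne
      -- the order of `r1(ξ)` at `P` is zero
      have h1 : aeval ξ r1 = algebraMap Ω (KL l) (r1.eval c) + (aeval ξ r1 - algebraMap Ω (KL l) (r1.eval c)) := by
        ring
      obtain ⟨q, hq⟩ := X_sub_C_dvd_sub_C_eval (a := c) (p := r1)
      have h2 := congrArg (aeval ξ) hq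
      rw [map_sub, aeval_C, map_mul, e1] at h2
      have h3 : OrdGe P 1 (aeval ξ r1 - algebraMap Ω (KL l) (r1.eval c)) := by
        rw [h2]
        have h4 : OrdGe P 1 (ξ - algebraMap Ω (KL l) c) := Or.inr (by omega)
        simpa using h4.mul (par_nonneg P hξP q)
      have hne' : algebraMap Ω (KL l) (r1.eval c) ≠ 0 := by
        rw [Ne, FaithfulSMul.algebraMap_eq_zero_iff]
        exact hne
      have h5 := (ord_add_eq P hne' (g := aeval ξ r1 - algebraMap Ω (KL l) (r1.eval c)) (by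
        rw [ord_const, zero_add]
        exact h3)).2
      rw [← h1, ord_const] at h5
      have h6 := hP P
      rw [hr1, map_mul, e1, ord_mul P hξc (par_aeval_ne hξ hr10), h5, add_zero] at h6
      exact (Int.not_odd_iff_even.2 h6) hP2
    obtain ⟨r2, hr2⟩ := dvd_iff_isRoot.2 hr1c
    have hr20 : r2 ≠ 0 := by
      rintro rfl
      rw [mul_zero] at hr2
      exact hr10 hr2
    have hd1 : r.natDegree = 1 + (1 + r2.natDegree) := by
      rw [hr1, natDegree_mul (X_sub_C_ne_zero c) hr10, natDegree_X_sub_C, hr2,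
        natDegree_mul (X_sub_C_ne_zero c) hr20, natDegree_X_sub_C]
    have h7 : ∀ Q : Place l, Even (ord Q (aeval ξ r2)) := by
      intro Q
      have h8 := hP Q
      rw [hr1, hr2, map_mul, map_mul, e1, ord_mul Q hξc (mul_ne_zero hξc (par_aeval_ne hξ hr20)),
        ord_mul Q hξc (par_aeval_ne hξ hr20)] at h8
      obtain ⟨k, hk⟩ := h8
      exact ⟨k - ord Q (ξ - algebraMap Ω (KL l) c), by omega⟩
    obtain ⟨s, hs⟩ := ih r2.natDegree (by omega) r2 hr20 le_rfl h7
    refine ⟨(X - C c) * s, ?_⟩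
    rw [hr1, hr2, hs]
    ring

theorem par_ord_x (P : Place l) : Even (ord P (xK l)) ∧ (P ≠ Place.inf → 0 ≤ ord P (xK l)) := by
  cases P with
  | inf =>
    rw [ord_x_inf]
    exact ⟨⟨-1, by norm_num⟩, fun h => absurd rfl h⟩
  | pt a b h =>
    have e0 : xK l = xK l - algebraMap Ω (KL l) 0 := by rw [map_zero, sub_zero]
    by_cases ha : a = 0
    · subst ha
      have hb : b = 0 := by
        have h1 : b ^ 2 = 0 := by
          rw [h]
          ring
        exact pow_eq_zero_iff (two_ne_zero) |>.1 h1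
      rw [e0, ord_xa_two 0 b h hb]
      exact ⟨⟨1, by norm_num⟩, fun _ => by norm_num⟩
    · rw [e0, ord_xa_ne 0 a b h ha]
      exact ⟨⟨0, by norm_num⟩, fun _ => le_rfl⟩

/-- **Parity.** A section with ratios of the coordinates in a field `Ω(ξ)` has even height. -/
theorem sec6 (v : Fin 3 → KL l) (w : KL l) (j : Fin 3) (hj : v j ≠ 0) (hw : w ≠ 0)
    (heq : xK l * w ^ 2 = v 0 ^ 4 + v 1 ^ 4 + v 2 ^ 4) (ξ : KL l) (hξ : ∀ a : Ω, ξ ≠ algebraMap Ω (KL l) a)
    (hM : ∀ i, v i / v j ∈ IntermediateField.adjoin Ω {ξ}) (d : ℕ) (hd : Odd d)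
    (hs : ∑ᶠ P : Place l, mord P v = -(d : ℤ)) : False := by
  obtain ⟨m, hm⟩ := par_height hξ v j hj hM
  have hn : Odd (npoles ξ) := by
    have h1 : (d : ℤ) = m * npoles ξ := by linarith
    have h2 : Odd (m * npoles ξ) := by
      rw [← h1]
      exact_mod_cast hd
    exact (Int.odd_mul.1 h2).2
  obtain ⟨g, B, C', hg, hv, -⟩ := par_rep hξ v j hj hM
  have hx0 : xK l ≠ 0 := xK_ne_zero
  -- `f(B)(ξ) = x (w / g²)²`
  have h1 : aeval ξ (B 0 ^ 4 + B 1 ^ 4 + B 2 ^ 4) = xK l * (w / g ^ 2) ^ 2 := by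
    have h2 : xK l * w ^ 2 = g ^ 4 * aeval ξ (B 0 ^ 4 + B 1 ^ 4 + B 2 ^ 4) := by
      rw [heq, hv 0, hv 1, hv 2]
      simp only [map_add, map_pow]
      ring
    rw [div_pow, ← mul_div_assoc, h2]
    field_simp
  have hwg : w / g ^ 2 ≠ 0 := div_ne_zero hw (pow_ne_zero 2 hg)
  have hr0 : B 0 ^ 4 + B 1 ^ 4 + B 2 ^ 4 ≠ 0 := by
    intro h0
    rw [h0, map_zero] at h1
    exact mul_ne_zero hx0 (pow_ne_zero 2 hwg) h1.symm
  have hev : ∀ P : Place l, Even (ord P (aeval ξ (B 0 ^ 4 + B 1 ^ 4 + B 2 ^ 4))) := by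
    intro P
    rw [h1, ord_mul P hx0 (pow_ne_zero 2 hwg), ord_pow]
    exact (par_ord_x P).1.add (by
      push_cast
      exact even_two_mul _)
  obtain ⟨s, hs'⟩ := par_square hξ hn _ _ hr0 le_rfl hev
  -- `x` is a square
  have hsq : (aeval ξ s / (w / g ^ 2)) ^ 2 = xK l := by
    rw [div_pow, ← map_pow, ← hs', h1]
    field_simp
  have hh0 : aeval ξ s / (w / g ^ 2) ≠ 0 := by
    intro h0
    rw [h0] at hsq
    exact hx0 (by rw [← hsq]; ring)
  have hord : ∀ P : Place l, 2 * ord P (aeval ξ s / (w / g ^ 2)) = ord P (xK l) := by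
    intro P
    rw [← hsq, ord_pow]
    norm_num
  obtain ⟨a, ha⟩ := no_simple_pole (f := aeval ξ s / (w / g ^ 2)) Place.inf (Or.inr (by
    have h2 := hord Place.inf
    rw [ord_x_inf] at h2
    omega)) (fun Q hQ => Or.inr (by
    have h2 := hord Q
    have h3 := (par_ord_x Q).2 hQ
    omega))
  have h4 := hord Place.inf
  rw [ord_x_inf, ha, ord_const] at h4
  omega

end Par

end Pool.Agent.Lib.MP_8ae0c1_ag
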