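import Pool.Agent.Lib.MP_8ae0c1_ag.HeightB
import Pool.Agent.Lib.MP_8ae0c1_ag.Parity
import Pool.Agent.Lib.MP_8ae0c1_agJ.Sec5

set_option autoImplicit false
set_option linter.unusedSectionVars false

namespace Pool.Agent.Lib.MP_8ae0c1_ag

open Polynomial EllFF

variable {Ω : Type} [Field Ω] [IsAlgClosed Ω] [CharZero Ω] {l : Ω} [Leg l]

theorem sec5 (v : Fin 3 → KL l) (j : Fin 3) (hj : v j ≠ 0) (D : Derivation ℤ Ω Ω) (hD : D l = 0)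
    (c : KL l) (hc : ∀ a : Ω, c ≠ algebraMap Ω (KL l) a)
    (hk : ∀ i, dext D (v i / v j) = c * dd (v i / v j))
    (hn : ∃ i, ∀ a : Ω, v i / v j ≠ algebraMap Ω (KL l) a) :
    ∃ ξ : KL l, (∀ a : Ω, ξ ≠ algebraMap Ω (KL l) a) ∧
      ∀ i, v i / v j ∈ IntermediateField.adjoin Ω {ξ} :=
  Pool.Agent.Lib.MP_8ae0c1_agJ.sec5 v j hj D hD c hc hk hn

end Pool.Agent.Lib.MP_8ae0c1_ag
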