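import Pool.Agent.Lib.MP_8ae0c1_ag.Cases
import Pool.Agent.Lib.MP_8ae0c1_ag.Secs

set_option autoImplicit false
set_option linter.unusedSectionVars false

namespace Pool.Agent.Lib.MP_8ae0c1_ag

open Polynomial EllFF

variable {Ω : Type} [Field Ω] [IsAlgClosed Ω] [CharZero Ω] {l : Ω} [Leg l]

theorem even_ord_x (P : Place l) : ∃ e : ℤ, ord P (EllFF.xK l) = 2 * e := by
  cases P with
  | inf => exact ⟨-1, by rw [ord_x_inf]; norm_num⟩
  | pt a b h =>
    by_cases ha : a = 0
    · subst ha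
      have hb : b = 0 := by
        have : b ^ 2 = 0 := by rw [h]; ring
        exact pow_eq_zero_iff (two_ne_zero) |>.1 this
      have h1 := ord_xa_two 0 b h hb
      rw [map_zero, sub_zero] at h1
      exact ⟨1, by rw [h1]; norm_num⟩
    · have h1 := ord_xa_ne 0 a b h ha
      rw [map_zero, sub_zero] at h1
      exact ⟨0, by rw [h1]; norm_num⟩

theorem quot_der {v : Fin 3 → K l} {j : Fin 3} (hj : v j ≠ 0) (E : Derivation ℤ (K l) (K l))
    (i : Fin 3) : E (v i / v j) = AA v E j i / v j ^ 2 := by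
  have h1 : E (v i) = E (v i / v j * v j) := by rw [div_mul_cancel₀ _ hj]
  rw [Derivation.leibniz] at h1
  simp only [smul_eq_mul] at h1
  rw [AA, h1]
  field_simp
  ring

/-- The coordinates are proportional to constants. -/
def Prop0 (v : Fin 3 → K l) : Prop :=
  ∃ j, v j ≠ 0 ∧ ∀ i, ∃ c : Ω, v i = algebraMap Ω (K l) c * v j

theorem prop0_sum {v : Fin 3 → K l} (hv : v ≠ 0) (h : Prop0 v) :
    ∑ᶠ P : Place l, mord P v = 0 := by
  obtain ⟨j, hj, hc⟩ := h
  have h1 : ∀ P : Place l, mord P v = ord P (v j) := by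
    intro P
    apply le_antisymm
    · exact (mord_ordGe P hv j).le hj
    · rw [le_mord_iff P hv]
      intro i
      obtain ⟨c, hc⟩ := hc i
      rw [hc]
      exact ((OrdGe.const P c).mul (OrdGe_self P (v j))).mono (by linarith)
  simp only [h1]
  exact ord_sum hj

theorem prop0_of_AA {v : Fin 3 → K l} (hv : v ≠ 0) (h : ∀ i j, AA v (ddZ l) i j = 0) :
    Prop0 v := by
  obtain ⟨j, hj⟩ := Function.ne_iff.1 hv
  refine ⟨j, hj, fun i => ?_⟩
  have h1 : dd (v i / v j) = 0 := by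
    rw [← ddZ_apply, quot_der hj, h, zero_div]
  obtain ⟨c, hc⟩ := dd_eq_zero h1
  exact ⟨c, by rw [← hc, div_mul_cancel₀ _ hj]⟩

theorem AA_ordGe {v : Fin 3 → K l} (hv : v ≠ 0) (P : Place l) {E : Derivation ℤ (K l) (K l)}
    (h : ∀ f, OrdGe P 0 f → OrdGe P 0 (E f)) (i j : Fin 3) :
    OrdGe P (2 * mord P v) (AA v E i j) := by
  obtain ⟨g, hg0, hg⟩ := exists_ord_eq P (-mord P v)
  have hv' : ∀ i, OrdGe P 0 (g * v i) := by
    intro i
    have h1 := (OrdGe_self P g).mul (mord_ordGe P hv i)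
    rw [hg] at h1
    exact h1.mono (by linarith)
  have h1 : OrdGe P 0 (g ^ 2 * AA v E i j) := by
    have h2 : g ^ 2 * AA v E i j = (g * v i) * E (g * v j) - (g * v j) * E (g * v i) := by
      simp only [AA, Derivation.leibniz, smul_eq_mul]
      ring
    rw [h2]
    have h3 := ((hv' i).mul (h _ (hv' j))).sub ((hv' j).mul (h _ (hv' i)))
    exact h3.mono (by norm_num)
  refine OrdGe_of_mul P (pow_ne_zero 2 hg0) h1 ?_
  rw [ord_pow, hg]
  push_cast
  ring

/-- The Fermat quartic has only constant points. -/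
theorem w_ne {v : Fin 3 → K l} (hv : v ≠ 0) (hq : quart v = 0)
    (hs : ∑ᶠ P : Place l, mord P v < 0) : False := by
  have h1 := congrArg (ddZ l) hq
  simp only [quart, map_add, Derivation.leibniz_pow, smul_eq_mul, nsmul_eq_mul, map_zero] at h1
  simp only [quart] at hq
  push_cast at h1
  -- the relations
  have hrel : ∀ j, ∑ i, v i ^ 3 * AA v (ddZ l) j i = 0 := by
    intro j
    rw [Fin.sum_univ_three]
    simp only [AA]
    linear_combination (v j / 4) * h1 - (ddZ l (v j)) * hq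
  have hcyc : ∀ j k i : Fin 3, j ≠ k → j ≠ i → k ≠ i →
      v k ^ 3 * AA v (ddZ l) j k = -(v i ^ 3 * AA v (ddZ l) j i) := by
    intro j k i hjk hji hki
    have h2 := hrel j
    have hjj : AA v (ddZ l) j j = 0 := by simp only [AA]; ring
    rw [sum_three (fun i => v i ^ 3 * AA v (ddZ l) j i) j k i hjk hji hki] at h2
    simp only [hjj] at h2
    linear_combination h2
  let a : Fin 3 → K l := ![AA v (ddZ l) 1 2, AA v (ddZ l) 2 0, AA v (ddZ l) 0 1]
  have hanti : ∀ i j, AA v (ddZ l) i j = -AA v (ddZ l) j i := by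
    intro i j
    simp only [AA]
    ring
  have hprop : ∀ i k, a i * v k ^ 3 = a k * v i ^ 3 := by
    have e1 := hcyc 0 1 2 (by decide) (by decide) (by decide)
    have e2 := hcyc 1 2 0 (by decide) (by decide) (by decide)
    have e3 := hcyc 2 0 1 (by decide) (by decide) (by decide)
    have f1 := hanti 1 0
    have f2 := hanti 2 1
    have f3 := hanti 0 2
    have g1 : AA v (ddZ l) 0 1 * v 1 ^ 3 = AA v (ddZ l) 2 0 * v 2 ^ 3 := by
      linear_combination e1 - v 2 ^ 3 * f3
    have g2 : AA v (ddZ l) 1 2 * v 2 ^ 3 = AA v (ddZ l) 0 1 * v 0 ^ 3 := by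
      linear_combination e2 - v 0 ^ 3 * f1
    have g3 : AA v (ddZ l) 2 0 * v 0 ^ 3 = AA v (ddZ l) 1 2 * v 1 ^ 3 := by
      linear_combination e3 - v 1 ^ 3 * f2
    have a0 : a 0 = AA v (ddZ l) 1 2 := rfl
    have a1 : a 1 = AA v (ddZ l) 2 0 := rfl
    have a2 : a 2 = AA v (ddZ l) 0 1 := rfl
    intro i k
    fin_cases i <;> fin_cases k <;> simp only [Fin.zero_eta, Fin.mk_one, Fin.reduceFinMk,
      a0, a1, a2] <;>
    first
    | linear_combination g1
    | linear_combination (-1 : K l) * g1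
    | linear_combination g2
    | linear_combination (-1 : K l) * g2
    | linear_combination g3
    | linear_combination (-1 : K l) * g3
    | ring1
  have haord : ∀ (P : Place l) (i : Fin 3), OrdGe P (2 * mord P v) (a i) := by
    intro P i
    have h2 := fun i j => AA_ordGe hv P (E := ddZ l) (fun f h => dd_ordGe P h) i j
    fin_cases i
    · exact h2 1 2
    · exact h2 2 0
    · exact h2 0 1
  obtain ⟨i0, hi0⟩ := Function.ne_iff.1 hv
  have hi0' : v i0 ≠ 0 := hi0
  have hκ : a i0 / v i0 ^ 3 = 0 := by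
    have h2 : a i0 / v i0 ^ 3 ∈ LSp fun P : Place l => mord P v := by
      rw [mem_LSp]
      intro P
      obtain ⟨i, hi, hi2⟩ := mord_attained P hv
      have h3 : v i ^ 3 * (a i0 / v i0 ^ 3) = a i := by
        have h4 := hprop i0 i
        field_simp
        linear_combination h4
      have h4 := haord P i
      rw [← h3] at h4
      refine OrdGe_of_mul P (pow_ne_zero 3 hi) h4 ?_
      rw [ord_pow, hi2]
      push_cast
      ring
    rw [LSp_neg (mord_support hv) hs, Submodule.mem_bot] at h2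
    exact h2
  have ha : ∀ i, a i = 0 := by
    intro i
    have h4 := hprop i0 i
    have h5 : a i0 = 0 := by
      rcases div_eq_zero_iff.1 hκ with h | h
      · exact h
      · exact absurd h (pow_ne_zero 3 hi0')
    rw [h5, zero_mul] at h4
    exact (mul_eq_zero.1 h4.symm).resolve_right (pow_ne_zero 3 hi0')
  have hAA : ∀ i j, AA v (ddZ l) i j = 0 := by
    have a0 : AA v (ddZ l) 1 2 = 0 := ha 0
    have a1 : AA v (ddZ l) 2 0 = 0 := ha 1
    have a2 : AA v (ddZ l) 0 1 = 0 := ha 2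
    have hjj : ∀ j, AA v (ddZ l) j j = 0 := fun j => by simp only [AA]; ring
    intro i j
    fin_cases i <;> fin_cases j
    · exact hjj 0
    · exact a2
    · exact (hanti 0 2).trans (by rw [a1, neg_zero])
    · exact (hanti 1 0).trans (by rw [a2, neg_zero])
    · exact hjj 1
    · exact a0
    · exact a1
    · exact (hanti 2 1).trans (by rw [a0, neg_zero])
    · exact hjj 2
  rw [prop0_sum hv (prop0_of_AA hv hAA)] at hs
  exact lt_irrefl _ hs

theorem prop0_of_one {v : Fin 3 → K l} (hv : v ≠ 0)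
    (hs : ∑ᶠ P : Place l, mord P v = -(1 : ℤ)) : Prop0 v := by
  obtain ⟨j, hj⟩ := Function.ne_iff.1 hv
  have hj' : v j ≠ 0 := hj
  refine ⟨j, hj, fun i => ?_⟩
  have hsup : (Function.support fun P : Place l => -mord P v).Finite := by
    refine (mord_support hv).subset fun P hP => ?_
    rw [Function.mem_support] at hP ⊢
    omega
  have h1 := LSp_eq hsup (by rw [finsum_neg_distrib, hs]; norm_num)
  rw [finsum_neg_distrib, hs, neg_neg] at h1
  have h2 : Module.finrank Ω (LSp fun P : Place l => -mord P v) = 1 := by exact_mod_cast h1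
  have hmem : ∀ i, v i ∈ LSp fun P : Place l => -mord P v := by
    intro i
    rw [mem_LSp]
    intro P
    rw [neg_neg]
    exact mord_ordGe P hv i
  obtain ⟨c, hc⟩ := exists_smul_eq_of_finrank_eq_one h2 (x := ⟨v j, hmem j⟩)
    (fun h0 => hj' (congrArg Subtype.val h0)) ⟨v i, hmem i⟩
  refine ⟨c, ?_⟩
  have h3 := congrArg Subtype.val hc
  rw [← Algebra.smul_def]
  exact h3.symm

/-- Theorem B_alg. -/
theorem B_alg (p : Sol l) (d : ℕ) (hd : Odd d)
    (hh : HasHeight l (⟦p⟧ : Quotient (Sol.setoid l)) d)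
    (E : Derivation ℤ Ω Ω) (hE : E l = 1) (D : Fin (d + 1) → Derivation ℤ Ω Ω)
    (hD : ∀ i, D i l = 0) :
    ∃ a : Fin (d + 1) → Ω, a ≠ 0 ∧ ∀ i j : Fin 3, p.1.1 j ≠ 0 →
      dext (∑ k, a k • D k) (p.1.1 i / p.1.1 j) = 0 := by
  by_contra hne
  push Not at hne
  have hs := (height_iff p d).1 hh
  have hv := p.2.1
  have heq : EllFF.xK l * p.1.2 ^ 2 = quart p.1.1 := p.2.2
  have hdpos : 0 < d := hd.pos
  have hd0 : ∑ᶠ P : Place l, mord P p.1.1 < 0 := by rw [hs]; omega
  have hw : p.1.2 ≠ 0 := by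
    intro h0
    rw [h0] at heq
    exact w_ne hv (by rw [← heq]; ring) hd0
  choose e he using fun P : Place l => even_ord_x P
  have hF : Frame p.1.1 p.1.2 e := ⟨hv, hw, heq, he⟩
  have hab : ∃ a b, AA p.1.1 (ddZ l) a b ≠ 0 := by
    by_contra hc
    push Not at hc
    rw [prop0_sum hv (prop0_of_AA hv hc)] at hd0
    exact lt_irrefl _ hd0
  obtain ⟨a, b, hab⟩ := hab
  have hinj : ∀ α : Fin (d + 1) → Ω, (∀ i j, AA p.1.1 (dext (Dm D α)) i j = 0) → α = 0 := by
    intro α hα
    by_contra h0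
    obtain ⟨i, j, hj, hij⟩ := hne α h0
    apply hij
    have h1 := quot_der hj (dext (Dm D α)) i
    rw [hα, zero_div] at h1
    exact h1
  have hd2 : 2 ≤ d := by
    by_contra hlt
    have h1 : d = 1 := by omega
    have h2 : ∑ᶠ P : Place l, mord P p.1.1 = -(1 : ℤ) := by rw [hs, h1]; norm_num
    rw [prop0_sum hv (prop0_of_one hv h2)] at hd0
    exact lt_irrefl _ hd0
  have hz0 : 0 ≤ ∑ᶠ P, zeta p.1.1 p.1.2 e (ddZ l) P := finsum_nonneg (zeta_nonneg hF hab)
  rcases hz0.eq_or_lt with hz | hz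
  · exact case_zero hF (by omega) hD hs hab hinj E hE hz.symm
  by_cases hz2 : ∑ᶠ P, zeta p.1.1 p.1.2 e (ddZ l) P < d
  · exact case_mid hF hD hs hab hinj hz hz2
  push Not at hz2
  obtain ⟨α, c, hc, hk⟩ := case_ge hF hd2 hD hs hab hinj hz2
  obtain ⟨j, hj⟩ := Function.ne_iff.1 hv
  have hj' : p.1.1 j ≠ 0 := hj
  have hk' : ∀ i, dext (Dm D α) (p.1.1 i / p.1.1 j) = c * dd (p.1.1 i / p.1.1 j) := by
    intro i
    rw [quot_der hj', hk, ← ddZ_apply, quot_der hj', mul_div_assoc]
  have hn : ∃ i, ∀ a : Ω, p.1.1 i / p.1.1 j ≠ algebraMap Ω (KL l) a := by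
    by_contra hc2
    push Not at hc2
    have h1 : Prop0 p.1.1 := ⟨j, hj', fun i => by
      obtain ⟨a, ha⟩ := hc2 i
      exact ⟨a, by rw [← ha, div_mul_cancel₀ _ hj']⟩⟩
    rw [prop0_sum hv h1] at hd0
    exact lt_irrefl _ hd0
  obtain ⟨ξ, hξ, hM⟩ := sec5 p.1.1 j hj' (Dm D α) (Dm_l hD α) c hc hk' hn
  exact sec6 p.1.1 p.1.2 j hj' hw heq ξ hξ hM d hd hs

end Pool.Agent.Lib.MP_8ae0c1_ag
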