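import Pool.Agent.Lib.MP_8ae0c1_ag.Zeta

set_option autoImplicit false
set_option linter.unusedSectionVars false

namespace Pool.Agent.Lib.MP_8ae0c1_ag

open Polynomial EllFF

variable {Ω : Type} [Field Ω] [IsAlgClosed Ω] [CharZero Ω] {l : Ω} [Leg l]
  {v : Fin 3 → K l} {w : K l} {e : Place l → ℤ}

/-- A linear combination of derivations. -/
noncomputable def Dm {n : ℕ} (D : Fin n → Derivation ℤ Ω Ω) (a : Fin n → Ω) : Derivation ℤ Ω Ω :=
  ∑ k, a k • D k

theorem Dm_apply {n : ℕ} (D : Fin n → Derivation ℤ Ω Ω) (a : Fin n → Ω) (x : Ω) :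
    Dm D a x = ∑ k, a k * D k x := by
  rw [Dm]
  induction (Finset.univ : Finset (Fin n)) using Finset.induction_on with
  | empty => simp
  | insert i s hi ih =>
    rw [Finset.sum_insert hi, Finset.sum_insert hi, Derivation.add_apply, ih]
    rfl

theorem Dm_l {n : ℕ} {D : Fin n → Derivation ℤ Ω Ω} (hD : ∀ i, D i l = 0) (a : Fin n → Ω) :
    Dm D a l = 0 := by
  rw [Dm_apply]
  exact Finset.sum_eq_zero fun k _ => by rw [hD, mul_zero]

theorem Dm_add {n : ℕ} (D : Fin n → Derivation ℤ Ω Ω) (a b : Fin n → Ω) :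
    Dm D (a + b) = Dm D a + Dm D b := by
  ext x
  rw [Derivation.add_apply, Dm_apply, Dm_apply, Dm_apply, ← Finset.sum_add_distrib]
  exact Finset.sum_congr rfl fun k _ => by rw [Pi.add_apply]; ring

theorem Dm_smul {n : ℕ} (D : Fin n → Derivation ℤ Ω Ω) (c : Ω) (a : Fin n → Ω) :
    Dm D (c • a) = c • Dm D a := by
  ext x
  rw [Derivation.smul_apply, Dm_apply, Dm_apply, smul_eq_mul, Finset.mul_sum]
  exact Finset.sum_congr rfl fun k _ => by rw [Pi.smul_apply, smul_eq_mul]; ring

theorem dext_add' (E E' : Derivation ℤ Ω Ω) :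
    (dext (E + E') : Derivation ℤ (K l) (K l)) = dext E + dext E' := by
  ext f
  rw [dext_add, Derivation.add_apply]

theorem dext_smul' (c : Ω) (E : Derivation ℤ Ω Ω) :
    (dext (c • E) : Derivation ℤ (K l) (K l)) = algebraMap Ω (K l) c • dext E := by
  ext f
  rw [dext_smul, Derivation.smul_apply, smul_eq_mul]

/-- The invariant derivation over the integers. -/
noncomputable def ddZ (l : Ω) [Leg l] : Derivation ℤ (K l) (K l) := (dd (l := l)).restrictScalars ℤ

theorem ddZ_apply (f : K l) : ddZ l f = dd f := rfl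

theorem RGe_dd (hF : Frame v w e) (P : Place l) : RGe v w e P 0 (ddZ l) :=
  RGe_of_pres hF P fun _ h => dd_ordGe P h

theorem RGe_dext (hF : Frame v w e) (P : Place l) {E : Derivation ℤ Ω Ω} (hE : E l = 0) :
    RGe v w e P 0 (dext E) :=
  RGe_of_pres hF P fun _ h => dext_ordGe E hE P h

/-- The wedge with the invariant derivation as a linear map. -/
noncomputable def Phi (v : Fin 3 → K l) (w : K l) {n : ℕ} (D : Fin n → Derivation ℤ Ω Ω) :
    (Fin n → Ω) →ₗ[Ω] K l where
  toFun a := hh v w (dext (Dm D a)) (ddZ l)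
  map_add' a b := by rw [Dm_add, dext_add', hh_add]
  map_smul' c a := by
    rw [Dm_smul, dext_smul', hh_smul, RingHom.id_apply, Algebra.smul_def]

/-- The quotient of the minors. -/
noncomputable def Psi (v : Fin 3 → K l) {n : ℕ} (D : Fin n → Derivation ℤ Ω Ω) (a b : Fin 3) :
    (Fin n → Ω) →ₗ[Ω] K l where
  toFun α := AA v (dext (Dm D α)) a b / AA v (ddZ l) a b
  map_add' α β := by rw [Dm_add, dext_add', AA_add, add_div]
  map_smul' c α := by
    rw [Dm_smul, dext_smul', AA_smul, RingHom.id_apply, Algebra.smul_def, mul_div_assoc]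

theorem Phi_mem (hF : Frame v w e) {n : ℕ} {D : Fin n → Derivation ℤ Ω Ω} (hD : ∀ i, D i l = 0)
    {a b : Fin 3} (hab : AA v (ddZ l) a b ≠ 0) (α : Fin n → Ω) :
    Phi v w D α ∈ LSp fun P => -(mord P v + e P + zeta v w e (ddZ l) P) := by
  rw [mem_LSp]
  intro P
  rw [neg_neg]
  have h1 := wedge hF P (RGe_dext hF P (Dm_l hD α)) (zeta_RGe hab (RGe_dd hF P))
  exact h1.mono (by linarith)

theorem Psi_mem (hF : Frame v w e) {n : ℕ} {D : Fin n → Derivation ℤ Ω Ω} (hD : ∀ i, D i l = 0)
    {a b : Fin 3} (hab : AA v (ddZ l) a b ≠ 0) (α : Fin n → Ω) (hα : Phi v w D α = 0) :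
    Psi v D a b α ∈ LSp (zeta v w e (ddZ l)) := by
  rw [mem_LSp]
  intro P
  obtain ⟨h1, h2⟩ := kernel hF _ _ hα hab
  have h3 := ordGe_of_RGe hab h1 h2 (RGe_dext hF P (Dm_l hD α))
  exact h3.mono (by linarith)

section Dim

variable {d : ℕ} {D : Fin (d + 1) → Derivation ℤ Ω Ω} {a b : Fin 3}

/-- the divisor of the wedges -/
noncomputable def del (v : Fin 3 → K l) (w : K l) (e : Place l → ℤ) (P : Place l) : ℤ :=
  -(mord P v + e P + zeta v w e (ddZ l) P)

theorem zeta_nonneg (hF : Frame v w e) (hab : AA v (ddZ l) a b ≠ 0) (P : Place l) :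
    0 ≤ zeta v w e (ddZ l) P := zeta_ge hab (RGe_dd hF P)

theorem del_support (hF : Frame v w e) (hab : AA v (ddZ l) a b ≠ 0) :
    (Function.support (del v w e)).Finite := by
  refine (((mord_support hF.hv).union (e_support hF)).union
    (zeta_support hF hab (RGe_dd hF))).subset fun P hP => ?_
  rw [Function.mem_support, del] at hP
  by_contra hne
  simp only [Set.mem_union, not_or, Function.notMem_support] at hne
  rw [hne.1.1, hne.1.2, hne.2] at hP
  exact hP (by norm_num)

theorem del_sum (hF : Frame v w e) (hab : AA v (ddZ l) a b ≠ 0)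
    (hs : ∑ᶠ P : Place l, mord P v = -(d : ℤ)) :
    ∑ᶠ P, del v w e P = d - ∑ᶠ P, zeta v w e (ddZ l) P := by
  have h1 : (Function.support fun P : Place l => mord P v).Finite := mord_support hF.hv
  have h2 := e_support hF
  have h3 := zeta_support hF hab (RGe_dd hF)
  have h12 : (Function.support fun P : Place l => mord P v + e P).Finite := by
    refine (h1.union h2).subset fun P hP => ?_
    by_contra hne
    simp only [Set.mem_union, not_or, Function.notMem_support] at hne
    rw [Function.mem_support, hne.1, hne.2] at hP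
    exact hP (by norm_num)
  simp only [del]
  rw [finsum_neg_distrib, finsum_add_distrib h12 h3, finsum_add_distrib h1 h2, hs, e_sum hF]
  ring

/-- The count of dimensions. -/
theorem dim_count (hF : Frame v w e) (hD : ∀ i, D i l = 0) (hab : AA v (ddZ l) a b ≠ 0)
    (hinj : ∀ α : Fin (d + 1) → Ω, (∀ i j, AA v (dext (Dm D α)) i j = 0) → α = 0) :
    Module.finrank Ω (LinearMap.range (Phi v w D)) + Module.finrank Ω (LinearMap.ker (Phi v w D)) =
      d + 1 ∧
    Module.finrank Ω (LinearMap.range (Phi v w D)) ≤ Module.finrank Ω (LSp (del v w e)) ∧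
    Module.finrank Ω (LinearMap.ker (Phi v w D)) ≤
      Module.finrank Ω (LSp (zeta v w e (ddZ l))) ∧
    Function.Injective ((Psi v D a b).comp (LinearMap.ker (Phi v w D)).subtype) := by
  have hi : Function.Injective ((Psi v D a b).comp (LinearMap.ker (Phi v w D)).subtype) := by
    rw [← LinearMap.ker_eq_bot, LinearMap.ker_eq_bot']
    intro α hα
    have hα0 : Phi v w D α.1 = 0 := α.2
    have h1 : AA v (dext (Dm D α.1)) a b / AA v (ddZ l) a b = 0 := hα
    obtain ⟨h2, -⟩ := kernel hF _ _ hα0 hab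
    have h3 := hinj α.1 fun i j => by rw [h2 i j, h1, zero_mul]
    exact Subtype.ext h3
  have hf1 : FiniteDimensional Ω (LSp (del v w e)) := LSp_finite (del_support hF hab)
  have hf2 : FiniteDimensional Ω (LSp (zeta v w e (ddZ l))) :=
    LSp_finite (zeta_support hF hab (RGe_dd hF))
  refine ⟨?_, ?_, ?_, hi⟩
  · rw [LinearMap.finrank_range_add_finrank_ker, Module.finrank_fin_fun]
  · apply Submodule.finrank_mono
    rintro x ⟨α, rfl⟩
    exact Phi_mem hF hD hab α
  · let f : LinearMap.ker (Phi v w D) →ₗ[Ω] LSp (zeta v w e (ddZ l)) :=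
      LinearMap.codRestrict _ ((Psi v D a b).comp (LinearMap.ker (Phi v w D)).subtype)
        fun α => Psi_mem hF hD hab α.1 α.2
    have hf : Function.Injective f := fun x y hxy => hi (congrArg Subtype.val hxy)
    exact LinearMap.finrank_le_finrank_of_injective hf

/-- The case of ramification. -/
theorem case_ge (hF : Frame v w e) (hd2 : 2 ≤ d) (hD : ∀ i, D i l = 0)
    (hs : ∑ᶠ P : Place l, mord P v = -(d : ℤ)) (hab : AA v (ddZ l) a b ≠ 0)
    (hinj : ∀ α : Fin (d + 1) → Ω, (∀ i j, AA v (dext (Dm D α)) i j = 0) → α = 0)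
    (hz : (d : ℤ) ≤ ∑ᶠ P, zeta v w e (ddZ l) P) :
    ∃ (α : Fin (d + 1) → Ω) (c : K l), (∀ u : Ω, c ≠ algebraMap Ω (K l) u) ∧
      ∀ i j, AA v (dext (Dm D α)) i j = c * AA v (ddZ l) i j := by
  obtain ⟨h1, h2, h3, hi⟩ := dim_count hF hD hab hinj
  have h4 := LSp_le (del_support hF hab)
  rw [del_sum hF hab hs] at h4
  have h5 : Module.finrank Ω (LSp (del v w e)) ≤ 1 := by
    have h6 : max 1 ((d : ℤ) - ∑ᶠ P, zeta v w e (ddZ l) P) ≤ 1 := by
      apply max_le le_rfl
      linarith
    have h7 := h4.trans h6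
    exact_mod_cast h7
  have h8 : 2 ≤ Module.finrank Ω (LinearMap.ker (Phi v w D)) := by omega
  by_contra hne
  push Not at hne
  have h9 : ∀ α : LinearMap.ker (Phi v w D), ∃ u : Ω,
      (Psi v D a b).comp (LinearMap.ker (Phi v w D)).subtype α = algebraMap Ω (K l) u := by
    intro α
    by_contra hc
    push Not at hc
    obtain ⟨h10, -⟩ := kernel hF _ _ (show hh v w (dext (Dm D α.1)) (ddZ l) = 0 from α.2) hab
    obtain ⟨i, j, hij⟩ := hne α.1 (Psi v D a b α.1) hc
    exact hij (h10 i j)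
  have h11 : LinearMap.range ((Psi v D a b).comp (LinearMap.ker (Phi v w D)).subtype) ≤
      Submodule.span Ω {(1 : K l)} := by
    rintro x ⟨α, rfl⟩
    obtain ⟨u, hu⟩ := h9 α
    rw [hu, Algebra.algebraMap_eq_smul_one]
    exact Submodule.smul_mem _ _ (Submodule.mem_span_singleton_self _)
  have h12 := Submodule.finrank_mono h11
  rw [LinearMap.finrank_range_of_inj hi, finrank_span_singleton one_ne_zero] at h12
  omega

/-- The case of an intermediate ramification is impossible. -/
theorem case_mid (hF : Frame v w e) (hD : ∀ i, D i l = 0)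
    (hs : ∑ᶠ P : Place l, mord P v = -(d : ℤ)) (hab : AA v (ddZ l) a b ≠ 0)
    (hinj : ∀ α : Fin (d + 1) → Ω, (∀ i j, AA v (dext (Dm D α)) i j = 0) → α = 0)
    (hz0 : 0 < ∑ᶠ P, zeta v w e (ddZ l) P) (hz : ∑ᶠ P, zeta v w e (ddZ l) P < d) : False := by
  obtain ⟨h1, h2, h3, hi⟩ := dim_count hF hD hab hinj
  have h4 := LSp_eq (del_support hF hab) (by rw [del_sum hF hab hs]; linarith)
  rw [del_sum hF hab hs] at h4
  have h5 := LSp_eq (zeta_support hF hab (RGe_dd hF)) hz0
  omega

theorem RGe_dext' (hF : Frame v w e) (P : Place l) (hP : P ≠ Place.pt l 0 (by ring))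
    (E : Derivation ℤ Ω Ω) : RGe v w e P 0 (dext E) :=
  RGe_of_pres hF P fun _ h => dext_ordGe' E P hP h

/-- The correction of a derivation with `l ↦ 1`. -/
noncomputable def corr (E : Derivation ℤ Ω Ω) : Derivation ℤ (K l) (K l) :=
  dext E + (algebraMap Ω (K l) (E l) * theta l) • ddZ l

theorem RGe_corr (hF : Frame v w e) (E : Derivation ℤ Ω Ω) :
    RGe v w e (Place.pt l 0 (by ring)) 0 (corr E) :=
  RGe_of_pres hF _ fun f h => by
    have h1 := dext_theta E h
    rw [corr, Derivation.add_apply, Derivation.smul_apply, smul_eq_mul, ddZ_apply]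
    exact h1

/-- The unramified case is impossible. -/
theorem case_zero (hF : Frame v w e) (hd1 : 1 ≤ d) (hD : ∀ i, D i l = 0)
    (hs : ∑ᶠ P : Place l, mord P v = -(d : ℤ)) (hab : AA v (ddZ l) a b ≠ 0)
    (hinj : ∀ α : Fin (d + 1) → Ω, (∀ i j, AA v (dext (Dm D α)) i j = 0) → α = 0)
    (E : Derivation ℤ Ω Ω) (hE : E l = 1)
    (hz : ∑ᶠ P, zeta v w e (ddZ l) P = 0) : False := by
  obtain ⟨h1, h2, h3, hi⟩ := dim_count hF hD hab hinj
  have hz1 : ∀ P, zeta v w e (ddZ l) P = 0 := by
    intro P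
    have h4 := zeta_nonneg hF hab P
    have h5 := single_le_finsum P (zeta_support hF hab (RGe_dd hF)) (zeta_nonneg hF hab)
    rw [hz] at h5
    omega
  have h4 := LSp_eq (del_support hF hab) (by rw [del_sum hF hab hs, hz]; omega)
  rw [del_sum hF hab hs, hz] at h4
  have h5 := LSp_le (zeta_support hF hab (RGe_dd hF))
  rw [hz, max_eq_left zero_le_one] at h5
  have hf1 : FiniteDimensional Ω (LSp (del v w e)) := LSp_finite (del_support hF hab)
  have h6 : Module.finrank Ω (LSp (del v w e)) ≤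
      Module.finrank Ω (LinearMap.range (Phi v w D)) := by omega
  have h7 : LinearMap.range (Phi v w D) ≤ LSp (del v w e) := by
    rintro x ⟨α, rfl⟩
    exact Phi_mem hF hD hab α
  have hrange : LinearMap.range (Phi v w D) = LSp (del v w e) :=
    Submodule.eq_of_le_of_finrank_le h7 h6
  -- the wedge of the derivation `E`
  have hEmem : hh v w (dext E) (ddZ l) ∈ LSp (del v w e) := by
    rw [mem_LSp]
    intro P
    rw [del, neg_neg]
    by_cases hP : P = Place.pt l 0 (by ring)
    · have h6 : hh v w (dext E) (ddZ l) = hh v w (corr E) (ddZ l) := by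
        rw [corr, hh_add, hh_self, add_zero]
      rw [h6, hP]
      have h7 := wedge hF _ (RGe_corr hF E) (zeta_RGe hab (RGe_dd hF (Place.pt l 0 (by ring))))
      exact h7.mono (by linarith)
    · have h7 := wedge hF _ (RGe_dext' hF P hP E) (zeta_RGe hab (RGe_dd hF P))
      exact h7.mono (by linarith)
  rw [← hrange] at hEmem
  obtain ⟨α, hα⟩ := hEmem
  have hG : hh v w (dext (E + Dm D (-α))) (ddZ l) = 0 := by
    rw [dext_add', hh_add]
    have h6 : hh v w (dext (Dm D (-α))) (ddZ l) = Phi v w D (-α) := rfl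
    rw [h6, map_neg, hα]
    ring
  have hG1 : (E + Dm D (-α)) l = 1 := by
    rw [Derivation.add_apply, hE, Dm_l hD, add_zero]
  obtain ⟨k1, k2⟩ := kernel hF _ _ hG hab
  set c : K l := AA v (dext (E + Dm D (-α))) a b / AA v (ddZ l) a b with hc
  have hc1 : ∀ Q : Place l, Q ≠ Place.pt l 0 (by ring) → OrdGe Q 0 c := by
    intro Q hQ
    have h6 := ordGe_of_RGe hab k1 k2 (RGe_dext' hF Q hQ (E + Dm D (-α)))
    rw [hz1] at h6
    exact h6.mono (by norm_num)
  have hc2 : OrdGe (Place.pt l 0 (by ring)) 0 (c + theta l) := by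
    have m1 : ∀ i j, AA v (corr (E + Dm D (-α))) i j = (c + theta l) * AA v (ddZ l) i j := by
      intro i j
      rw [corr, AA_add, AA_smul, k1 i j, hG1, map_one]
      ring
    have m2 : ∀ i, BB v w (corr (E + Dm D (-α))) i = (c + theta l) * BB v w (ddZ l) i := by
      intro i
      rw [corr, BB_add, BB_smul, k2 i, hG1, map_one]
      ring
    have h6 := ordGe_of_RGe hab m1 m2 (RGe_corr hF (E + Dm D (-α)))
    rw [hz1] at h6
    exact h6.mono (by norm_num)
  obtain ⟨ht0, ht1⟩ := theta_ord (l := l)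
  have hc3 : OrdGe (Place.pt l 0 (by ring)) (-1) c := by
    have h6 : c = (c + theta l) - theta l := by ring
    rw [h6]
    exact (hc2.mono (by norm_num)).sub (Or.inr ht1.ge)
  obtain ⟨u, hu⟩ := no_simple_pole _ hc3 hc1
  have hc4 : OrdGe (Place.pt l 0 (by ring)) 0 (theta l) := by
    have h6 : theta l = (c + theta l) - c := by ring
    rw [h6, hu]
    rw [hu] at hc2
    exact hc2.sub (OrdGe.const _ u)
  have h8 := hc4.le ht0
  rw [ht1] at h8
  omega

end Dim

end Pool.Agent.Lib.MP_8ae0c1_ag
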