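import Mathlib

/-!
# Sections of a del Pezzo fibration over an elliptic curve

`B` is the elliptic curve `y^2 = x (x - 1) (x - l)`, `K` its function field, `F` the del Pezzo surface
`w^2 = v0^4 + v1^4 + v2^4` of degree 2 in `P(1,1,1,2)`. The function `x` has the divisor
`2 (0,0) - 2 oo` on `B`, so `B' = B(sqrt x)` is an etale double cover of `B`, and the quotient
`X = (F x B') / (Geiser involution w -> -w, deck transformation)` is a smooth projective threefold
with a map `X -> B` all of whose fibres are isomorphic to `F`. Its generic fibre is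
`X_eta : x w^2 = v0^4 + v1^4 + v2^4`; the Picard rank of `X_eta` is 1, because the Geiser involution
is `-1` on the orthogonal complement of the canonical class. `X` is a double cover of `P^2 x B`, and
`-K_{X/B}` is the pullback of `O(1)` up to a 2-torsion class from `B`.
-/

namespace Pool.Agent.Lib.MP_8ae0c1_ag

open Polynomial

variable {F : Type} [Field F]

/-- The base curve `B : y^2 = x (x - 1) (x - l) = x^3 - (1 + l) x^2 + l x`, as Weierstrass curve with
the coefficients `a1 = 0, a2 = -(1 + l), a3 = 0, a4 = l, a6 = 0`. -/
abbrev W (l : F) : WeierstrassCurve.Affine F := ⟨0, -(1 + l), 0, l, 0⟩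

/-- The coordinate ring of the affine curve `y^2 = x (x - 1) (x - l)`, that is of `B` without its
point `oo` at infinity. -/
abbrev R (l : F) : Type := (W l).CoordinateRing

/-- The function field of `B`. -/
abbrev K (l : F) : Type := (W l).FunctionField

/-- The function `x` in the coordinate ring. -/
noncomputable def xR (l : F) : R l := WeierstrassCurve.Affine.CoordinateRing.mk (W l) (C X)

/-- The function `y` in the coordinate ring. -/
noncomputable def yR (l : F) : R l := WeierstrassCurve.Affine.CoordinateRing.mk (W l) Polynomial.X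

/-- Affine points of the curve. -/
def Pt (l : F) : Type := {P : F × F // P.2 ^ 2 = P.1 * (P.1 - 1) * (P.1 - l)}

theorem ev_aux (l : F) (P : Pt l) :
    eval₂ (evalRingHom P.1.1) P.1.2 (W l).polynomial = 0 := by
  have h := P.2
  simp only [WeierstrassCurve.Affine.polynomial, W, eval₂_sub, eval₂_add, eval₂_pow, eval₂_X,
    eval₂_mul, eval₂_C, coe_evalRingHom, eval_add, eval_mul, eval_C, eval_X, eval_pow]
  linear_combination h

/-- Evaluation of functions at an affine point. -/
noncomputable def ev (l : F) (P : Pt l) : R l →+* F :=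
  AdjoinRoot.lift (evalRingHom P.1.1) P.1.2 (ev_aux l P)

/-- Order of the pole at infinity of an element of the coordinate ring
(the degree of its norm to `F[x]`; `x` has order 2, `y` has order 3). -/
noncomputable def pole (l : F) (f : R l) : ℕ := (Algebra.norm F[X] f).natDegree

/-- The quartic form `f = v0^4 + v1^4 + v2^4`. -/
def quart {A : Type} [CommRing A] (v : Fin 3 → A) : A := v 0 ^ 4 + v 1 ^ 4 + v 2 ^ 4

/-- Coordinates `(v, w)` of the points over `K` of the generic fibre `X_eta : x w^2 = f(v)` in
`P(1,1,1,2)` (`v = 0` would force `w = 0`). -/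
def Sol (l : F) : Type :=
  {p : (Fin 3 → K l) × K l // p.1 ≠ 0 ∧ algebraMap (R l) (K l) (xR l) * p.2 ^ 2 = quart p.1}

/-- Two coordinate vectors give the same point of the weighted projective space `P(1,1,1,2)`. -/
def Sol.Rel (l : F) (p q : Sol l) : Prop :=
  ∃ g : K l, g ≠ 0 ∧ q.1.1 = g • p.1.1 ∧ q.1.2 = g ^ 2 * p.1.2

theorem Sol.rel_equiv (l : F) : Equivalence (Sol.Rel l) where
  refl p := ⟨1, one_ne_zero, by simp, by simp⟩
  symm := by
    rintro p q ⟨g, hg, h1, h2⟩
    refine ⟨g⁻¹, inv_ne_zero hg, ?_, ?_⟩
    · rw [h1, smul_smul, inv_mul_cancel₀ hg, one_smul]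
    · rw [h2]
      field_simp
  trans := by
    rintro p q r ⟨g, hg, h1, h2⟩ ⟨h, hh, h3, h4⟩
    refine ⟨h * g, mul_ne_zero hh hg, ?_, ?_⟩
    · rw [h3, h1, smul_smul]
    · rw [h4, h2]
      ring

instance Sol.setoid (l : F) : Setoid (Sol l) := ⟨Sol.Rel l, Sol.rel_equiv l⟩

/-- The `K`-points of the generic fibre `X_eta`, that is the sections of `X -> B` (`X` is projective
and `B` a smooth curve). -/
def Sec (l : F) : Type := Quotient (Sol.setoid l)

/-- `(v, u)` are regular coordinates of the section `s`: `s = [v : w]` with `v` in `R^3` and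
`u = x w` in `R` (automatic, since `u^2 = x f(v)`). -/
def IsRep (l : F) (s : Sec l) (v : Fin 3 → R l) (u : R l) : Prop :=
  ∃ p : Sol l, (⟦p⟧ : Quotient (Sol.setoid l)) = s ∧
    p.1.1 = (fun i => algebraMap (R l) (K l) (v i)) ∧
    algebraMap (R l) (K l) (xR l) * p.1.2 = algebraMap (R l) (K l) u

/-- The map `v : B -> P^2` of the section is given by three sections of a line bundle of degree `n`
on the projective curve `B`: every line bundle of degree `n` is `O(n oo)` or `O((n+1) oo - Q)` with
`Q` an affine point. -/
def HasRep (l : F) (s : Sec l) (n : ℕ) : Prop :=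
  ∃ (v : Fin 3 → R l) (u : R l), IsRep l s v u ∧
    ((∀ i, pole l (v i) ≤ n) ∨
      ((∀ i, pole l (v i) ≤ n + 1) ∧ ∃ Q : Pt l, ∀ i, ev l Q (v i) = 0))

/-- The anticanonical height `-K_{X/B} . C` is `d`. It is the degree of the composed map
`v : B -> X -> P^2`, that is the least degree of a line bundle with three sections that give `v`.
(Every section has exactly one height: `height_unique` in the file `Uniq`.) -/
def HasHeight (l : F) (s : Sec l) (d : ℕ) : Prop :=
  HasRep l s d ∧ ∀ n, n < d → ¬ HasRep l s n

/-- The space of sections of height `d`. -/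
def SecD (l : F) (d : ℕ) : Type := {s : Sec l // HasHeight l s d}

/-- `c = (v, w)` in `F^4` are coordinates of the value of `s` at the affine point `P`, `x(P)` not 0,
in the fibre `X_P : x(P) w^2 = f(v)` in `P(1,1,1,2)`; all multiples `(t v, t^2 w)` occur. (Every
section has coordinates at every `P`: `coord_exists` in the folder `MP_8ae0c1_agH`.) -/
def Coord (l : F) (s : Sec l) (P : Pt l) (c : Fin 4 → F) : Prop :=
  ∃ (v : Fin 3 → R l) (u : R l), IsRep l s v u ∧ (∃ i, ev l P (v i) ≠ 0) ∧
    c 0 = ev l P (v 0) ∧ c 1 = ev l P (v 1) ∧ c 2 = ev l P (v 2) ∧ P.1.1 * c 3 = ev l P u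

/-- Affine points with `x(P)` not zero. -/
def Pt0 (l : F) : Type := {P : Pt l // P.1.1 ≠ 0}

/-- The Zariski closed subset of the space of sections given by a polynomial `G` in the
coordinates of the values at the points `P_1, .., P_m` (`G` has to vanish for all choices of the
coordinates, so these are multihomogeneous conditions). -/
def zero (l : F) (d m : ℕ) (P : Fin m → Pt0 l) (G : MvPolynomial (Fin m × Fin 4) F) :
    Set (SecD l d) :=
  {s | ∀ c : Fin m × Fin 4 → F, (∀ k, Coord l s.1 (P k).1 (fun j => c (k, j))) →
    MvPolynomial.eval c G = 0}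

/-- The Zariski topology of the space of sections of height `d` (the closed points of the part of
the Hom scheme of degree `d`): the coarsest topology for which the sets `zero` are closed. They are
closed in the Hom scheme because evaluation is a morphism. Conversely two sections of heights at most
`d` which agree in more than `2 d` points are equal, and in a limit of sections of height `d` (a
section of height `d' <= d` and vertical curves) the values change in at most `d - d'` fibres, so the
evaluation at more than `3 d` points is a homeomorphism onto its image. -/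
instance (l : F) (d : ℕ) : TopologicalSpace (SecD l d) :=
  TopologicalSpace.generateFrom
    {U | ∃ (m : ℕ) (P : Fin m → Pt0 l) (G : MvPolynomial (Fin m × Fin 4) F),
      U = (zero l d m P G)ᶜ}

/-- The union of the sections in `M` lies in a surface: the images of the sections under the finite
map `X -> P^2 x B` lie in the zero set of a nonzero homogeneous polynomial `H` over `K`. -/
def InSurface (l : F) (d : ℕ) (M : Set (SecD l d)) : Prop :=
  ∃ (n : ℕ) (H : MvPolynomial (Fin 3) (K l)), H ≠ 0 ∧ H.IsHomogeneous n ∧
    ∀ s ∈ M, ∀ v u, IsRep l s.1 v u →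
      MvPolynomial.eval (fun i => algebraMap (R l) (K l) (v i)) H = 0

/-- `q ^ dim M` for `q > 1`, with the Krull dimension of the nonempty topological space `M`. -/
noncomputable def wt {T : Type} [TopologicalSpace T] (q : ℝ) (M : Set T) : ENNReal :=
  ⨆ (n : ℕ) (_ : (n : WithBot ℕ∞) ≤ topologicalKrullDim M), ENNReal.ofReal (q ^ n)

/-- The counting function `N(X, -K_{X/B}, q, d)`, the sum of `q ^ dim M` over `1 <= i <= d` and
`M` in `Man i`, for the sets `Man i` of Manin components of height `i`. -/
noncomputable def Ncount (l : ℂ) (Man : (i : ℕ) → Set (Set (SecD l i))) (q : ℝ) (d : ℕ) : ENNReal :=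
  ∑ i ∈ Finset.Icc 1 d, ∑' M : Man i, wt q M.1

end Pool.Agent.Lib.MP_8ae0c1_ag
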