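import Pool.Agent.Lib.MP_8ae0c1_ag.BAlg

set_option autoImplicit false
set_option linter.unusedSectionVars false

namespace Pool.Agent.Lib.MP_8ae0c1_ag

open Polynomial EllFF

variable {Ω : Type} [Field Ω] [IsAlgClosed Ω] [CharZero Ω] {l : Ω} [Leg l]

theorem yK_ne0 : yK l ≠ 0 := by
  intro h0
  have h1 := ord_y_inf (l := l)
  rw [h0, ord_zero] at h1
  omega

/-- A uniformiser at infinity which is killed by the derivations. -/
theorem dext_t (D : Derivation ℤ Ω Ω) (hD : D l = 0) :
    dext D (EllFF.xK l / yK l) = 0 := by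
  have hy : yK l ≠ 0 := yK_ne0
  have h1 : dext D (EllFF.xK l) = dext D (EllFF.xK l / yK l * yK l) := by
    rw [div_mul_cancel₀ _ hy]
  rw [Derivation.leibniz, dext_x, dext_y' D hD, smul_zero, zero_add, smul_eq_mul] at h1
  exact (mul_eq_zero.1 h1.symm).resolve_left hy

/-- The divisor `(m) oo`. -/
noncomputable def dinf (l : Ω) (m : ℕ) (P : Place l) : ℤ :=
  open Classical in if P = Place.inf then (m : ℤ) else 0

theorem dinf_support (m : ℕ) : (Function.support (dinf l m)).Finite := by
  classical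
  exact (Set.finite_singleton (Place.inf : Place l)).subset fun P hP => by
    by_contra hne
    exact hP (if_neg hne)

theorem dinf_sum (m : ℕ) : ∑ᶠ P : Place l, dinf l m P = m := by
  classical
  rw [finsum_eq_single (dinf l m) Place.inf (fun P hP => if_neg hP)]
  exact if_pos rfl

theorem mem_dinf {m : ℕ} {f : K l} : f ∈ LSp (dinf l m) ↔
    (∀ P : Place l, P ≠ Place.inf → OrdGe P 0 f) ∧ OrdGe Place.inf (-(m : ℤ)) f := by
  classical
  rw [mem_LSp]
  constructor
  · intro h
    refine ⟨fun P hP => ?_, ?_⟩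
    · have h1 := h P
      rw [dinf, if_neg hP, neg_zero] at h1
      exact h1
    · have h1 := h Place.inf
      rw [dinf, if_pos rfl] at h1
      exact h1
  · rintro ⟨h1, h2⟩ P
    by_cases hP : P = Place.inf
    · rw [hP, dinf, if_pos rfl]
      exact h2
    · rw [dinf, if_neg hP, neg_zero]
      exact h1 P hP

theorem dext_mem {D : Derivation ℤ Ω Ω} (hD : D l = 0) {m : ℕ} {f : K l}
    (h : f ∈ LSp (dinf l m)) : dext D f ∈ LSp (dinf l m) := by
  rw [mem_dinf] at h ⊢
  refine ⟨fun P hP => dext_ordGe D hD P (h.1 P hP), ?_⟩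
  have hx : EllFF.xK l ≠ 0 := xK_ne_zero
  have ht0 : EllFF.xK l / yK l ≠ 0 := div_ne_zero hx yK_ne0
  have ht : ord (Place.inf : Place l) (EllFF.xK l / yK l) = 1 := by
    rw [ord_div _ hx yK_ne0, ord_x_inf, ord_y_inf]
    norm_num
  have h1 : OrdGe Place.inf 0 ((EllFF.xK l / yK l) ^ m * f) := by
    have h2 := (OrdGe_self Place.inf ((EllFF.xK l / yK l) ^ m)).mul h.2
    rw [ord_pow, ht] at h2
    exact h2.mono (by linarith)
  have h2 := dext_ordGe D hD Place.inf h1
  have h3 : dext D ((EllFF.xK l / yK l) ^ m) = 0 := by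
    rw [Derivation.leibniz_pow, dext_t D hD]
    simp
  rw [Derivation.leibniz, h3, smul_zero, add_zero, smul_eq_mul] at h2
  refine OrdGe_of_mul Place.inf (pow_ne_zero m ht0) h2 ?_
  rw [ord_pow, ht]
  ring

/-- The number of independent derivations along a section is bounded. -/
theorem finDim (p : Sol l) (d : ℕ) (hh : HasHeight l (⟦p⟧ : Quotient (Sol.setoid l)) d) (n : ℕ)
    (D : Fin n → Derivation ℤ Ω Ω) (hD : ∀ i, D i l = 0)
    (hind : ∀ a : Fin n → Ω, (∀ i j : Fin 3, p.1.1 j ≠ 0 →
      dext (∑ k, a k • D k) (p.1.1 i / p.1.1 j) = 0) → a = 0) : n ≤ 3 * (d + 1) := by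
  obtain ⟨v, u, ⟨p', hp', hv, -⟩, hc⟩ := hh.1
  obtain ⟨g, hg, e1, -⟩ : Sol.Rel l p p' := Quotient.exact hp'.symm
  have hvi : ∀ i, algebraMap (R l) (K l) (v i) = g * p.1.1 i := by
    intro i
    have h1 := congrFun hv i
    rw [e1] at h1
    exact h1.symm
  have hpole : ∀ i, pole l (v i) ≤ d + 1 := by
    rcases hc with hc | ⟨hc, -⟩
    · exact fun i => (hc i).trans (Nat.le_succ d)
    · exact hc
  have hmem : ∀ i, algebraMap (R l) (K l) (v i) ∈ LSp (dinf l (d + 1)) := by
    intro i
    rw [mem_dinf]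
    refine ⟨fun P hP => ordGe_fin P hP _, ?_⟩
    rw [← pole_le_iff _ _ (by positivity)]
    exact_mod_cast hpole i
  have hfin : FiniteDimensional Ω (LSp (dinf l (d + 1))) := LSp_finite (dinf_support (d + 1))
  let Θ : (Fin n → Ω) →ₗ[Ω] (Fin 3 → LSp (dinf l (d + 1))) :=
    { toFun := fun a i => ⟨dext (Dm D a) (algebraMap (R l) (K l) (v i)),
        dext_mem (Dm_l hD a) (hmem i)⟩
      map_add' := fun a b => by
        funext i
        apply Subtype.ext
        show dext (Dm D (a + b)) _ = dext (Dm D a) _ + dext (Dm D b) _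
        rw [Dm_add, dext_add]
      map_smul' := fun c a => by
        funext i
        apply Subtype.ext
        show dext (Dm D (c • a)) _ = c • dext (Dm D a) _
        rw [Dm_smul, dext_smul, Algebra.smul_def] }
  have hΘ : Function.Injective Θ := by
    rw [← LinearMap.ker_eq_bot, LinearMap.ker_eq_bot']
    intro a ha
    have h0 : ∀ i, dext (Dm D a) (algebraMap (R l) (K l) (v i)) = 0 := by
      intro i
      exact congrArg Subtype.val (congrFun ha i)
    apply hind
    intro i j hj
    have hj' : algebraMap (R l) (K l) (v j) ≠ 0 := by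
      rw [hvi]
      exact mul_ne_zero hg hj
    have h1 : p.1.1 i / p.1.1 j = algebraMap (R l) (K l) (v i) / algebraMap (R l) (K l) (v j) := by
      rw [hvi, hvi, mul_div_mul_left _ _ hg]
    rw [h1]
    have h2 := quot_der (v := fun i => algebraMap (R l) (K l) (v i)) hj' (dext (Dm D a)) i
    have h3 : AA (fun i => algebraMap (R l) (K l) (v i)) (dext (Dm D a)) j i = 0 := by
      simp only [AA, h0, mul_zero, sub_zero]
    rw [h3, zero_div] at h2
    exact h2
  have h1 := LinearMap.finrank_le_finrank_of_injective hΘ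
  rw [Module.finrank_fin_fun, Module.finrank_pi_fintype] at h1
  have h2 := LSp_eq (dinf_support (l := l) (d + 1)) (by rw [dinf_sum]; positivity)
  rw [dinf_sum] at h2
  have h3 : Module.finrank Ω (LSp (dinf l (d + 1))) = d + 1 := by exact_mod_cast h2
  rw [h3] at h1
  simpa using h1

end Pool.Agent.Lib.MP_8ae0c1_ag
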