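import Pool.Agent.Lib.MP_8ae0c1_ag.Zeta

set_option autoImplicit false
set_option linter.unusedSectionVars false

namespace Pool.Agent.Lib.MP_8ae0c1_ag

open Polynomial EllFF

variable {Ω : Type} [Field Ω] [IsAlgClosed Ω] [CharZero Ω] {l : Ω} [Leg l]

/-- The place of a point. -/
def toPlace (Q : Pt l) : Place l := Place.pt Q.1.1 Q.1.2 Q.2

theorem ev_algebraMap' (P : Pt l) (a : Ω) : ev l P (algebraMap Ω (R l) a) = a := by
  have h : algebraMap Ω (R l) a = AdjoinRoot.of _ (Polynomial.C a) := rfl
  rw [h, ev, AdjoinRoot.lift_of, Polynomial.coe_evalRingHom, Polynomial.eval_C]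

theorem ev_eq_evR (Q : Pt l) (r : R l) : ev l Q r = evR Q.1.1 Q.1.2 Q.2 r := by
  have hx : ev l Q (EllFF.xR l) = Q.1.1 := by
    have h : EllFF.xR l = AdjoinRoot.of _ (Polynomial.X) := rfl
    rw [h, ev, AdjoinRoot.lift_of, Polynomial.coe_evalRingHom, Polynomial.eval_X]
  have hy : ev l Q (EllFF.yR l) = Q.1.2 := by
    have h : EllFF.yR l = AdjoinRoot.root _ := rfl
    rw [h, ev, AdjoinRoot.lift_root]
  have hp : ∀ p : Polynomial Ω, ev l Q (Polynomial.aeval (EllFF.xR l) p) =
      Polynomial.aeval Q.1.1 p := by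
    intro p
    induction p using Polynomial.induction_on' with
    | add p q h1 h2 => rw [map_add, map_add, h1, h2, map_add]
    | monomial n a =>
      rw [Polynomial.aeval_monomial, map_mul, map_pow, hx, ev_algebraMap', Polynomial.aeval_monomial]
      rfl
  have hp2 : ∀ p : Polynomial Ω, evR Q.1.1 Q.1.2 Q.2 (Polynomial.aeval (EllFF.xR l) p) =
      Polynomial.aeval Q.1.1 p := by
    intro p
    rw [← Polynomial.aeval_algHom_apply, evR_x]
  obtain ⟨p, q, rfl⟩ := RL_repr r
  rw [map_add, map_mul, map_add, map_mul, hp, hp, hy, evR_y, hp2, hp2]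

theorem ev_eq_zero_iff (Q : Pt l) (r : R l) :
    ev l Q r = 0 ↔ OrdGe (toPlace Q) 1 (algebraMap (R l) (K l) r) := by
  rw [ev_eq_evR, toPlace, ordGe_one_iff]

theorem place_cases (P : Place l) : P = Place.inf ∨ ∃ Q : Pt l, P = toPlace Q := by
  cases P with
  | inf => exact Or.inl rfl
  | pt a b h => exact Or.inr ⟨⟨(a, b), h⟩, rfl⟩

theorem toPlace_ne (Q : Pt l) : toPlace Q ≠ Place.inf := by
  intro h
  cases h

theorem ordGe_fin (P : Place l) (hP : P ≠ Place.inf) (r : R l) :
    OrdGe P 0 (algebraMap (R l) (K l) r) := by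
  obtain h | ⟨Q, rfl⟩ := place_cases P
  · exact absurd h hP
  · exact ordGe_RL _ _ _ r

theorem pole_le_iff (n : ℤ) (r : R l) (hn : 0 ≤ n) :
    (pole l r : ℤ) ≤ n ↔ OrdGe Place.inf (-n) (algebraMap (R l) (K l) r) := by
  by_cases hr : r = 0
  · subst hr
    rw [map_zero]
    refine ⟨fun _ => OrdGe.zero _ _, fun _ => ?_⟩
    rw [pole, Algebra.norm_zero, Polynomial.natDegree_zero]
    simpa using hn
  · have h1 := ord_inf_RL hr
    have h2 : algebraMap (R l) (K l) r ≠ 0 := (map_ne_zero_iff _ (IsFractionRing.injective _ _)).2 hr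
    constructor
    · intro h
      right
      rw [h1]
      rw [pole] at h
      linarith
    · intro h
      have h3 := h.le h2
      rw [h1] at h3
      rw [pole]
      linarith

theorem mord_sum_le {v : Fin 3 → K l} (hv : v ≠ 0) : ∑ᶠ P : Place l, mord P v ≤ 0 := by
  obtain ⟨i, hi⟩ := Function.ne_iff.1 hv
  rw [← ord_sum hi]
  refine finsum_le_finsum' (mord_support hv) (ord_support hi) fun P => ?_
  exact (mord_ordGe P hv i).le hi

theorem mord_smul_sum {v : Fin 3 → K l} (hv : v ≠ 0) {g : K l} (hg : g ≠ 0) :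
    ∑ᶠ P : Place l, mord P (g • v) = ∑ᶠ P : Place l, mord P v := by
  simp only [mord_smul _ hv hg]
  rw [finsum_add_distrib (ord_support hg) (mord_support hv), ord_sum hg, zero_add]

/-- A bound for the degree from a representative. -/
theorem sum_ge_of_rep {s : Sec l} {n : ℕ} (h : HasRep l s n) (p : Sol l)
    (hp : (⟦p⟧ : Quotient (Sol.setoid l)) = s) : -(n : ℤ) ≤ ∑ᶠ P : Place l, mord P p.1.1 := by
  classical
  obtain ⟨v, u, ⟨p', hp', hv, -⟩, hc⟩ := h
  obtain ⟨g, hg, e1, -⟩ : Sol.Rel l p p' := Quotient.exact (hp.trans hp'.symm)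
  rw [← mord_smul_sum p.2.1 hg, ← e1]
  have hv0 : p'.1.1 ≠ 0 := p'.2.1
  have hfin : ∀ P : Place l, P ≠ Place.inf → 0 ≤ mord P p'.1.1 := by
    intro P hP
    rw [le_mord_iff P hv0]
    intro i
    rw [hv]
    exact ordGe_fin P hP _
  rcases hc with hc | ⟨hc, Q, hQ⟩
  · have h1 : ∑ᶠ P : Place l, (if P = Place.inf then -(n : ℤ) else 0) = -(n : ℤ) := by
      rw [finsum_eq_single _ Place.inf (fun P hP => if_neg hP), if_pos rfl]
    rw [← h1]
    refine finsum_le_finsum' ?_ (mord_support hv0) fun P => ?_
    · exact (Set.finite_singleton (Place.inf : Place l)).subset fun P hP => by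
        by_contra hne
        exact hP (if_neg hne)
    · by_cases hP : P = Place.inf
      · simp only [hP, if_pos]
        rw [le_mord_iff _ hv0]
        intro i
        rw [hv, ← pole_le_iff (n : ℤ) _ (Int.natCast_nonneg n)]
        exact_mod_cast hc i
      · simp only [if_neg hP]
        exact hfin P hP
  · have h1 : ∑ᶠ P : Place l, ((if P = Place.inf then -((n : ℤ) + 1) else 0) +
        (if P = toPlace Q then 1 else 0)) = -(n : ℤ) := by
      rw [finsum_add_distrib, finsum_eq_single _ Place.inf (fun P hP => if_neg hP), if_pos rfl,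
        finsum_eq_single _ (toPlace Q) (fun P hP => if_neg hP), if_pos rfl]
      · ring
      · exact (Set.finite_singleton (Place.inf : Place l)).subset fun P hP => by
          by_contra hne
          exact hP (if_neg hne)
      · exact (Set.finite_singleton (toPlace Q)).subset fun P hP => by
          by_contra hne
          exact hP (if_neg hne)
    rw [← h1]
    refine finsum_le_finsum' ?_ (mord_support hv0) fun P => ?_
    · exact ((Set.finite_singleton (Place.inf : Place l)).union
        (Set.finite_singleton (toPlace Q))).subset fun P hP => by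
          by_contra hne
          rw [Set.mem_union, not_or, Set.mem_singleton_iff, Set.mem_singleton_iff] at hne
          rw [Function.mem_support, if_neg hne.1, if_neg hne.2] at hP
          exact hP (by norm_num)
    · by_cases hP : P = Place.inf
      · subst hP
        simp only [if_neg (toPlace_ne Q).symm, if_pos]
        rw [le_mord_iff _ hv0]
        intro i
        rw [hv, add_zero, ← pole_le_iff ((n : ℤ) + 1) _ (by positivity)]
        exact_mod_cast hc i
      · by_cases hPQ : P = toPlace Q
        · subst hPQ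
          simp only [if_neg hP, if_pos]
          rw [le_mord_iff _ hv0]
          intro i
          rw [hv, zero_add, ← ev_eq_zero_iff]
          exact hQ i
        · simp only [if_neg hP, if_neg hPQ]
          exact hfin P hP

end Pool.Agent.Lib.MP_8ae0c1_ag
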