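import Pool.Agent.Lib.MP_8ae0c1_ag.HeightA

set_option autoImplicit false
set_option linter.unusedSectionVars false

namespace Pool.Agent.Lib.MP_8ae0c1_ag

open Polynomial EllFF

variable {Ω : Type} [Field Ω] [IsAlgClosed Ω] [CharZero Ω] {l : Ω} [Leg l]

theorem quart_smul (g : K l) (v : Fin 3 → K l) : quart (g • v) = g ^ 4 * quart v := by
  simp only [quart, Pi.smul_apply, smul_eq_mul]
  ring

theorem quart_ordGe' {v : Fin 3 → K l} (P : Place l) (h : ∀ i, OrdGe P 0 (v i)) :
    OrdGe P 0 (quart v) := by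
  have h1 : ∀ i, OrdGe P 0 (v i ^ 4) := fun i => (OrdGe_pow P (h i) 4).mono (by norm_num)
  exact ((h1 0).add (h1 1)).add (h1 2)

/-- A representative from a multiplier. -/
theorem exists_rep_of (p : Sol l) {g : K l} (hg : g ≠ 0)
    (h : ∀ P : Place l, P ≠ Place.inf → ∀ i, OrdGe P 0 (g * p.1.1 i)) :
    ∃ (v : Fin 3 → R l) (u : R l), IsRep l (⟦p⟧ : Quotient (Sol.setoid l)) v u ∧
      (∀ i, algebraMap (R l) (K l) (v i) = g * p.1.1 i) ∧
      algebraMap (R l) (K l) u = EllFF.xK l * g ^ 2 * p.1.2 := by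
  have hx : EllFF.xK l ≠ 0 := xK_ne_zero
  have h1 : ∀ i, ∃ r : R l, algebraMap (R l) (K l) r = g * p.1.1 i := by
    intro i
    rw [mem_RL_iff]
    exact fun P hP => h P hP i
  have h2 : ∃ r : R l, algebraMap (R l) (K l) r = EllFF.xK l * g ^ 2 * p.1.2 := by
    rw [mem_RL_iff]
    intro P hP
    by_cases hw : p.1.2 = 0
    · left
      rw [hw, mul_zero]
    right
    have h3 : (EllFF.xK l * g ^ 2 * p.1.2) ^ 2 = EllFF.xK l * quart (g • p.1.1) := by
      have h4 : EllFF.xK l * p.1.2 ^ 2 = quart p.1.1 := p.2.2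
      rw [quart_smul, ← h4]
      ring
    have h5 : OrdGe P 0 (EllFF.xK l * quart (g • p.1.1)) := by
      have h6 : OrdGe P 0 (EllFF.xK l) := ordGe_fin P hP (EllFF.xR l)
      have h7 : OrdGe P 0 (quart (g • p.1.1)) := quart_ordGe' P fun i => h P hP i
      exact (h6.mul h7).mono (by norm_num)
    rw [← h3] at h5
    have h8 := h5.le (pow_ne_zero 2 (mul_ne_zero (mul_ne_zero hx (pow_ne_zero 2 hg)) hw))
    rw [ord_pow] at h8
    push_cast at h8
    linarith
  choose v hv using h1
  obtain ⟨u, hu⟩ := h2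
  refine ⟨v, u, ⟨⟨(g • p.1.1, g ^ 2 * p.1.2), smul_ne_zero hg p.2.1, ?_⟩, ?_, ?_, ?_⟩, hv, hu⟩
  · have h4 : EllFF.xK l * p.1.2 ^ 2 = quart p.1.1 := p.2.2
    show EllFF.xK l * (g ^ 2 * p.1.2) ^ 2 = quart (g • p.1.1)
    rw [quart_smul, ← h4]
    ring
  · exact Quotient.sound ((Sol.rel_equiv l).symm ⟨g, hg, rfl, rfl⟩)
  · funext i
    rw [hv]
    rfl
  · rw [hu]
    show EllFF.xK l * (g ^ 2 * p.1.2) = _
    ring

theorem exists_ne_of_finrank {δ : Place l → ℤ} (h : 0 < Module.finrank Ω (LSp δ)) :
    ∃ g : K l, g ≠ 0 ∧ ∀ P, -δ P ≤ ord P g := by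
  have h1 : Nontrivial (LSp δ) := Module.nontrivial_of_finrank_pos h
  obtain ⟨g, hg⟩ := exists_ne (0 : LSp δ)
  have hg0 : g.1 ≠ 0 := fun h0 => hg (Subtype.ext h0)
  exact ⟨g.1, hg0, fun P => ((mem_LSp.1 g.2) P).le hg0⟩

theorem supp_single (n : ℤ) :
    (Function.support (fun P : Place l => open Classical in if P = Place.inf then n else 0)).Finite := by
  classical
  exact (Set.finite_singleton (Place.inf : Place l)).subset fun P hP => by
    by_contra hne
    exact hP (if_neg hne)

/-- Representatives exist. -/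
theorem rep_of_sum (p : Sol l) (n : ℕ) (h : -(n : ℤ) ≤ ∑ᶠ P : Place l, mord P p.1.1) :
    HasRep l (⟦p⟧ : Quotient (Sol.setoid l)) n := by
  classical
  have hv := p.2.1
  have hsup : ∀ k : ℤ, (Function.support fun P : Place l =>
      mord P p.1.1 + (if P = Place.inf then k else 0)).Finite := by
    intro k
    refine ((mord_support hv).union (supp_single k)).subset fun P hP => ?_
    by_contra hne
    simp only [Set.mem_union, not_or, Function.notMem_support] at hne
    have h2 := hne.2
    rw [Function.mem_support, hne.1] at hP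
    apply hP
    rw [zero_add]
    exact_mod_cast h2
  have hsum : ∀ k : ℤ, ∑ᶠ P : Place l, (mord P p.1.1 + (if P = Place.inf then k else 0)) =
      ∑ᶠ P : Place l, mord P p.1.1 + k := by
    intro k
    have h3 : (Function.support fun P : Place l => if P = Place.inf then k else 0).Finite :=
      supp_single k
    rw [finsum_add_distrib (mord_support hv) h3, finsum_eq_single _ Place.inf
      (fun P hP => if_neg hP), if_pos rfl]
  -- the multiplier gives representatives
  have hgood : ∀ (k : ℤ) (g : K l), g ≠ 0 →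
      (∀ P : Place l, -(mord P p.1.1 + (if P = Place.inf then k else 0)) ≤ ord P g) →
      ∀ P : Place l, P ≠ Place.inf → ∀ i, OrdGe P 0 (g * p.1.1 i) := by
    intro k g hg hk P hP i
    have h1 := hk P
    rw [if_neg hP] at h1
    have h2 := (OrdGe_self P g).mul (mord_ordGe P hv i)
    exact h2.mono (by linarith)
  have hpole : ∀ (k : ℤ) (g : K l), g ≠ 0 → -(mord Place.inf p.1.1 + k) ≤ ord Place.inf g →
      ∀ i, OrdGe Place.inf (-k) (g * p.1.1 i) := by
    intro k g hg hk i
    have h2 := (OrdGe_self Place.inf g).mul (mord_ordGe Place.inf hv i)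
    exact h2.mono (by linarith)
  by_cases hS : ∑ᶠ P : Place l, mord P p.1.1 = -(n : ℤ)
  · obtain ⟨g, hg, hk⟩ := exists_ne_of_finrank (l := l)
      (δ := fun P => mord P p.1.1 + (if P = Place.inf then ((n : ℤ) + 1) else 0)) (by
        have h1 := LSp_eq (hsup ((n : ℤ) + 1)) (by rw [hsum, hS]; linarith)
        rw [hsum, hS] at h1
        have h2 : (0 : ℤ) < Module.finrank Ω (LSp fun P : Place l =>
          mord P p.1.1 + (if P = Place.inf then ((n : ℤ) + 1) else 0)) := by
          rw [h1]
          linarith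
        exact_mod_cast h2)
    obtain ⟨v, u, hr, hv1, -⟩ := exists_rep_of p hg (hgood _ g hg hk)
    have hQ : ∃ Q : Place l, 1 ≤ ord Q g + (mord Q p.1.1 +
        (if Q = Place.inf then ((n : ℤ) + 1) else 0)) := by
      by_contra hne
      push Not at hne
      have h1 : ∑ᶠ P : Place l, (ord P g + (mord P p.1.1 +
          (if P = Place.inf then ((n : ℤ) + 1) else 0))) = 1 := by
        rw [finsum_add_distrib (ord_support hg) (hsup _), ord_sum hg, hsum, hS]
        ring
      have h2 : ∀ P : Place l, ord P g + (mord P p.1.1 +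
          (if P = Place.inf then ((n : ℤ) + 1) else 0)) = 0 := by
        intro P
        have h3 := hne P
        have h4 := hk P
        omega
      simp only [h2] at h1
      rw [finsum_zero] at h1
      exact absurd h1 (by norm_num)
    obtain ⟨Q, hQ⟩ := hQ
    refine ⟨v, u, hr, ?_⟩
    have hkinf := hk Place.inf
    rw [if_pos rfl] at hkinf
    by_cases hQi : Q = Place.inf
    · left
      intro i
      have h1 : (pole l (v i) : ℤ) ≤ n := by
        rw [pole_le_iff (n : ℤ) _ (by positivity), hv1]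
        rw [hQi, if_pos rfl] at hQ
        exact hpole n g hg (by linarith) i
      exact_mod_cast h1
    · right
      obtain h1 | ⟨Q', rfl⟩ := place_cases Q
      · exact absurd h1 hQi
      refine ⟨fun i => ?_, Q', fun i => ?_⟩
      · have h1 : (pole l (v i) : ℤ) ≤ (n : ℤ) + 1 := by
          rw [pole_le_iff ((n : ℤ) + 1) _ (by positivity), hv1]
          exact hpole _ g hg (by linarith) i
        exact_mod_cast h1
      · rw [ev_eq_zero_iff, hv1]
        rw [if_neg hQi, add_zero] at hQ
        have h2 := (OrdGe_self (toPlace Q') g).mul (mord_ordGe (toPlace Q') hv i)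
        exact h2.mono hQ
  · obtain ⟨g, hg, hk⟩ := exists_ne_of_finrank (l := l)
      (δ := fun P => mord P p.1.1 + (if P = Place.inf then (n : ℤ) else 0)) (by
        have h0 : (0 : ℤ) < ∑ᶠ P : Place l, mord P p.1.1 + n := by omega
        have h1 := LSp_eq (hsup (n : ℤ)) (by rw [hsum]; exact h0)
        rw [hsum] at h1
        have h2 : (0 : ℤ) < Module.finrank Ω (LSp fun P : Place l =>
          mord P p.1.1 + (if P = Place.inf then (n : ℤ) else 0)) := by
          rw [h1]
          exact h0
        exact_mod_cast h2)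
    obtain ⟨v, u, hr, hv1, -⟩ := exists_rep_of p hg (hgood _ g hg hk)
    refine ⟨v, u, hr, Or.inl fun i => ?_⟩
    have hkinf := hk Place.inf
    rw [if_pos rfl] at hkinf
    have h1 : (pole l (v i) : ℤ) ≤ n := by
      rw [pole_le_iff (n : ℤ) _ (by positivity), hv1]
      exact hpole n g hg hkinf i
    exact_mod_cast h1

/-- LEMMA H: the height is minus the sum of the least orders. -/
theorem height_iff (p : Sol l) (d : ℕ) :
    HasHeight l (⟦p⟧ : Quotient (Sol.setoid l)) d ↔ ∑ᶠ P : Place l, mord P p.1.1 = -(d : ℤ) := by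
  have hle := mord_sum_le p.2.1
  constructor
  · rintro ⟨h1, h2⟩
    have h3 := sum_ge_of_rep h1 p rfl
    by_contra hne
    obtain ⟨m, hm⟩ := Int.eq_ofNat_of_zero_le (neg_nonneg.2 hle)
    have h4 : m < d := by omega
    exact h2 m h4 (rep_of_sum p m (by omega))
  · intro h
    refine ⟨rep_of_sum p d h.ge, fun n hn hr => ?_⟩
    have h3 := sum_ge_of_rep hr p rfl
    omega

theorem height_iff_rep {s : Sec l} {v : Fin 3 → R l} {u : R l} (h : IsRep l s v u) (d : ℕ) :
    HasHeight l s d ↔ ∑ᶠ P : Place l, mord P (fun i => algebraMap (R l) (K l) (v i)) = -(d : ℤ) := by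
  obtain ⟨p, rfl, hp, -⟩ := h
  rw [height_iff, hp]

end Pool.Agent.Lib.MP_8ae0c1_ag
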