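import Pool.Agent.Lib.MP_8ae0c1_ag.Wedge

set_option autoImplicit false
set_option linter.unusedSectionVars false

namespace Pool.Agent.Lib.MP_8ae0c1_ag

open Polynomial EllFF

variable {Ω : Type} [Field Ω] [IsAlgClosed Ω] [CharZero Ω] {l : Ω} [Leg l]
  {v : Fin 3 → K l} {w : K l} {e : Place l → ℤ}

theorem RGe_of_pres (hF : Frame v w e) (P : Place l) {E : Derivation ℤ (K l) (K l)}
    (h : ∀ f, OrdGe P 0 f → OrdGe P 0 (E f)) : RGe v w e P 0 E := by
  have hx : EllFF.xK l ≠ 0 := xK_ne_zero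
  obtain ⟨g, hg0, hg⟩ := exists_ord_eq P (-mord P v)
  obtain ⟨s, hs0, hs⟩ := exists_ord_eq P (e P)
  have hv' : ∀ i, OrdGe P 0 (g * v i) := by
    intro i
    have h1 := (OrdGe_self P g).mul (mord_ordGe P hF.hv i)
    rw [hg] at h1
    exact h1.mono (by linarith)
  constructor
  · intro i j
    have h1 : OrdGe P 0 (g ^ 2 * AA v E i j) := by
      have h2 : g ^ 2 * AA v E i j = (g * v i) * E (g * v j) - (g * v j) * E (g * v i) := by
        simp only [AA, Derivation.leibniz, smul_eq_mul]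
        ring
      rw [h2]
      have h3 := ((hv' i).mul (h _ (hv' j))).sub ((hv' j).mul (h _ (hv' i)))
      exact h3.mono (by norm_num)
    refine OrdGe_of_mul P (pow_ne_zero 2 hg0) h1 ?_
    rw [ord_pow, hg]
    push_cast
    ring
  · intro i
    have hW : OrdGe P 0 (s * g ^ 2 * w) := by
      right
      rw [ord_mul P (mul_ne_zero hs0 (pow_ne_zero 2 hg0)) hF.hw, ord_mul P hs0 (pow_ne_zero 2 hg0),
        ord_pow, hs, hg]
      have := w_ord hF P
      push_cast
      linarith
    have hε0 : EllFF.xK l / s ^ 2 ≠ 0 := div_ne_zero hx (pow_ne_zero 2 hs0)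
    have hε : ord P (EllFF.xK l / s ^ 2) = 0 := by
      rw [ord_div P hx (pow_ne_zero 2 hs0), ord_pow, hs, hF.he]
      push_cast
      ring
    have hεr : OrdGe P 0 (EllFF.xK l / s ^ 2) := Or.inr hε.ge
    have hεi : OrdGe P 0 (EllFF.xK l / s ^ 2)⁻¹ := Or.inr (by rw [ord_inv, hε, neg_zero])
    have h2i : OrdGe P 0 ((2 : KL l)⁻¹) := by
      have h3 : ((2 : KL l)⁻¹) = algebraMap Ω (KL l) (2⁻¹) := by rw [map_inv₀, map_ofNat]
      rw [h3]
      exact OrdGe.const P _
    have h1 : OrdGe P 0 ((s * g ^ 3) * BB v w E i) := by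
      have h2 : (s * g ^ 3) * BB v w E i = (g * v i) * (E (s * g ^ 2 * w) +
          E (EllFF.xK l / s ^ 2) * (2 : KL l)⁻¹ * (EllFF.xK l / s ^ 2)⁻¹ * (s * g ^ 2 * w)) -
          2 * ((s * g ^ 2 * w) * E (g * v i)) := by
        have hEx : E (EllFF.xK l) = E (EllFF.xK l / s ^ 2) * s ^ 2 +
            2 * (EllFF.xK l / s ^ 2) * s * E s := by
          have h4 : E (EllFF.xK l) = E (EllFF.xK l / s ^ 2 * s ^ 2) := by
            rw [div_mul_cancel₀ _ (pow_ne_zero 2 hs0)]
          rw [h4, Derivation.leibniz, Derivation.leibniz_pow]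
          simp only [smul_eq_mul, nsmul_eq_mul]
          push_cast
          ring
        simp only [BB]
        rw [hEx]
        simp only [Derivation.leibniz, Derivation.leibniz_pow, smul_eq_mul, nsmul_eq_mul]
        push_cast
        field_simp
        ring
      rw [h2]
      have a1 := ((((h _ hεr).mul h2i).mul hεi).mul hW)
      have a2 := (h _ hW).add (a1.mono (show (0 : ℤ) ≤ _ by norm_num))
      have a3 := (hv' i).mul a2
      have a4 := OrdGe_two_mul P (hW.mul (h _ (hv' i)))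
      exact (a3.mono (show (0 : ℤ) ≤ _ by norm_num)).sub (a4.mono (show (0 : ℤ) ≤ _ by norm_num))
    refine OrdGe_of_mul P (mul_ne_zero hs0 (pow_ne_zero 3 hg0)) h1 ?_
    rw [ord_mul P hs0 (pow_ne_zero 3 hg0), ord_pow, hs, hg]
    push_cast
    ring

section Algebra

variable (v w)

theorem AA_add (E1 E2 : Derivation ℤ (K l) (K l)) (i j : Fin 3) :
    AA v (E1 + E2) i j = AA v E1 i j + AA v E2 i j := by
  simp only [AA, Derivation.add_apply]
  ring

theorem BB_add (E1 E2 : Derivation ℤ (K l) (K l)) (i : Fin 3) :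
    BB v w (E1 + E2) i = BB v w E1 i + BB v w E2 i := by
  simp only [BB, Derivation.add_apply]
  ring

theorem AA_smul (c : K l) (E : Derivation ℤ (K l) (K l)) (i j : Fin 3) :
    AA v (c • E) i j = c * AA v E i j := by
  simp only [AA, Derivation.smul_apply, smul_eq_mul]
  ring

theorem BB_smul (c : K l) (E : Derivation ℤ (K l) (K l)) (i : Fin 3) :
    BB v w (c • E) i = c * BB v w E i := by
  simp only [BB, Derivation.smul_apply, smul_eq_mul]
  ring

theorem hh_add (E1 E2 E : Derivation ℤ (K l) (K l)) :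
    hh v w (E1 + E2) E = hh v w E1 E + hh v w E2 E := by
  simp only [hh, det3, Derivation.add_apply]
  ring

theorem hh_smul (c : K l) (E1 E : Derivation ℤ (K l) (K l)) :
    hh v w (c • E1) E = c * hh v w E1 E := by
  simp only [hh, det3, Derivation.smul_apply, smul_eq_mul]
  ring

theorem hh_self (c : K l) (E : Derivation ℤ (K l) (K l)) :
    hh v w (c • E) E = 0 := by
  simp only [hh, det3, Derivation.smul_apply, smul_eq_mul]
  ring

end Algebra

theorem prod_id (E1 E2 : Derivation ℤ (K l) (K l)) (i j a b : Fin 3) :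
    ∃ κ : K l, AA v E1 i j * AA v E2 a b - AA v E2 i j * AA v E1 a b =
      κ * det3 v (fun i => E1 (v i)) (fun i => E2 (v i)) := by
  simp only [AA, det3]
  fin_cases i <;> fin_cases j <;> fin_cases a <;> fin_cases b <;>
    simp only [Fin.zero_eta, Fin.mk_one, Fin.reduceFinMk] <;>
  first
  | exact ⟨0, by ring1⟩
  | exact ⟨v 0, by ring1⟩
  | exact ⟨-v 0, by ring1⟩
  | exact ⟨v 1, by ring1⟩
  | exact ⟨-v 1, by ring1⟩
  | exact ⟨v 2, by ring1⟩
  | exact ⟨-v 2, by ring1⟩

/-- The kernel of the wedge. -/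
theorem kernel (hF : Frame v w e) (E1 E2 : Derivation ℤ (K l) (K l)) (h0 : hh v w E1 E2 = 0)
    {a b : Fin 3} (hab : AA v E2 a b ≠ 0) :
    (∀ i j, AA v E1 i j = AA v E1 a b / AA v E2 a b * AA v E2 i j) ∧
      ∀ i, BB v w E1 i = AA v E1 a b / AA v E2 a b * BB v w E2 i := by
  have hx : EllFF.xK l ≠ 0 := xK_ne_zero
  have hdet : det3 v (fun i => E1 (v i)) (fun i => E2 (v i)) = 0 := by
    rw [hh, div_eq_zero_iff] at h0
    exact h0.resolve_right hF.hw
  have h1 : ∀ i j, AA v E1 i j = AA v E1 a b / AA v E2 a b * AA v E2 i j := by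
    intro i j
    obtain ⟨κ, hκ⟩ := prod_id (v := v) E1 E2 i j a b
    rw [hdet, mul_zero] at hκ
    field_simp
    linear_combination hκ
  refine ⟨h1, fun i => ?_⟩
  have hs1 := star hF E1 i
  have hs2 := star hF E2 i
  have hs3 : ∑ j, 2 * v j ^ 3 * AA v E1 i j =
      AA v E1 a b / AA v E2 a b * ∑ j, 2 * v j ^ 3 * AA v E2 i j := by
    rw [Finset.mul_sum]
    refine Finset.sum_congr rfl fun j _ => ?_
    rw [h1 i j]
    ring
  rw [hs1, hs2] at hs3
  have hxw : EllFF.xK l * w ≠ 0 := mul_ne_zero hx hF.hw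
  apply mul_left_cancel₀ hxw
  linear_combination hs3

end Pool.Agent.Lib.MP_8ae0c1_ag
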