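import Pool.Agent.Lib.MP_8ae0c1_ag.Defs
import Pool.Agent.Lib.MP_8ae0c1_agF.EFace

set_option autoImplicit false

namespace Pool.Agent.Lib.MP_8ae0c1_ag

open Polynomial EllFF

variable {Ω : Type} [Field Ω] [IsAlgClosed Ω] [CharZero Ω] {l : Ω} [Leg l]

/-- The least order of the coordinates at a place. -/
noncomputable def mord (P : Place l) (v : Fin 3 → K l) : ℤ := sSup {n : ℤ | ∀ i, OrdGe P n (v i)}

theorem mord_set_bdd (P : Place l) {v : Fin 3 → K l} (hv : v ≠ 0) :
    BddAbove {n : ℤ | ∀ i, OrdGe P n (v i)} := by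
  obtain ⟨i, hi⟩ := Function.ne_iff.1 hv
  exact ⟨ord P (v i), fun n hn => (hn i).le hi⟩

theorem mord_set_ne (P : Place l) (v : Fin 3 → K l) :
    {n : ℤ | ∀ i, OrdGe P n (v i)}.Nonempty := by
  refine ⟨-(∑ i, |ord P (v i)|), fun i => Or.inr ?_⟩
  have h1 : |ord P (v i)| ≤ ∑ j, |ord P (v j)| :=
    Finset.single_le_sum (f := fun j => |ord P (v j)|) (fun j _ => abs_nonneg _) (Finset.mem_univ i)
  have h2 := neg_abs_le (ord P (v i))
  linarith

theorem le_mord_iff (P : Place l) {v : Fin 3 → K l} (hv : v ≠ 0) (n : ℤ) :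
    n ≤ mord P v ↔ ∀ i, OrdGe P n (v i) := by
  constructor
  · intro h i
    have h1 : mord P v ∈ {n : ℤ | ∀ i, OrdGe P n (v i)} :=
      Int.csSup_mem (mord_set_ne P v) (mord_set_bdd P hv)
    exact (h1 i).mono h
  · intro h
    exact le_csSup (mord_set_bdd P hv) h

theorem mord_ordGe (P : Place l) {v : Fin 3 → K l} (hv : v ≠ 0) (i : Fin 3) :
    OrdGe P (mord P v) (v i) := (le_mord_iff P hv _).1 le_rfl i

/-- Some coordinate has the least order. -/
theorem mord_attained (P : Place l) {v : Fin 3 → K l} (hv : v ≠ 0) :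
    ∃ i, v i ≠ 0 ∧ ord P (v i) = mord P v := by
  by_contra hne
  push Not at hne
  have h1 : mord P v + 1 ≤ mord P v := by
    rw [le_mord_iff P hv]
    intro i
    by_cases hi : v i = 0
    · exact Or.inl hi
    · have h2 := (mord_ordGe P hv i).le hi
      have h3 := hne i hi
      right
      omega
  omega

theorem mord_smul (P : Place l) {v : Fin 3 → K l} (hv : v ≠ 0) {g : K l} (hg : g ≠ 0) :
    mord P (g • v) = ord P g + mord P v := by
  have hgv : g • v ≠ 0 := smul_ne_zero hg hv
  apply le_antisymm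
  · have h1 : mord P (g • v) - ord P g ≤ mord P v := by
      rw [le_mord_iff P hv]
      intro i
      by_cases hi : v i = 0
      · exact Or.inl hi
      · right
        have h2 := (mord_ordGe P hgv i).le (by rw [Pi.smul_apply]; exact smul_ne_zero hg hi)
        rw [Pi.smul_apply, smul_eq_mul, ord_mul P hg hi] at h2
        omega
    omega
  · rw [le_mord_iff P hgv]
    intro i
    by_cases hi : v i = 0
    · left
      rw [Pi.smul_apply, hi, smul_zero]
    · right
      rw [Pi.smul_apply, smul_eq_mul, ord_mul P hg hi]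
      have h2 := (mord_ordGe P hv i).le hi
      omega

end Pool.Agent.Lib.MP_8ae0c1_ag
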