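import Pool.Agent.Lib.MP_8ae0c1_ag.HeightB

set_option autoImplicit false
set_option linter.unusedSectionVars false

namespace Pool.Agent.Lib.MP_8ae0c1_ag

open Polynomial EllFF

variable {Ω : Type} [Field Ω] [IsAlgClosed Ω] [CharZero Ω] {l : Ω} [Leg l]

/-- Every section has exactly one height. -/
theorem height_unique (s : Sec l) : ∃! d : ℕ, HasHeight l s d := by
  obtain ⟨p, rfl⟩ := Quotient.exists_rep s
  have hle := mord_sum_le p.2.1
  obtain ⟨m, hm⟩ := Int.eq_ofNat_of_zero_le (neg_nonneg.2 hle)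
  refine ⟨m, ?_, fun d hd => ?_⟩
  · show HasHeight l (⟦p⟧ : Quotient (Sol.setoid l)) m
    rw [height_iff]
    linarith
  · have h1 : HasHeight l (⟦p⟧ : Quotient (Sol.setoid l)) d := hd
    rw [height_iff] at h1
    omega

end Pool.Agent.Lib.MP_8ae0c1_ag
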