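import Pool.Agent.Lib.MP_8ae0c1_ag.Mord

set_option autoImplicit false
set_option linter.unusedSectionVars false

namespace Pool.Agent.Lib.MP_8ae0c1_ag

open Polynomial EllFF

section Basic

variable {Ω : Type} [Field Ω] [IsAlgClosed Ω] [CharZero Ω] {l : Ω} [Leg l] (P : Place l)

theorem OrdGe_mul_iff {g f : KL l} (hg : g ≠ 0) (n : ℤ) :
    OrdGe P (ord P g + n) (g * f) ↔ OrdGe P n f := by
  constructor
  · intro h
    rcases h with h | h
    · left
      exact (mul_eq_zero.1 h).resolve_left hg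
    · by_cases hf : f = 0
      · exact Or.inl hf
      · right
        rw [ord_mul P hg hf] at h
        omega
  · intro h
    have h1 : OrdGe P (ord P g) g := Or.inr le_rfl
    exact h1.mul h

theorem OrdGe_of_mul {g f : KL l} (hg : g ≠ 0) {k n : ℤ} (h : OrdGe P k (g * f))
    (hk : ord P g + n = k) : OrdGe P n f := by
  subst hk
  exact (OrdGe_mul_iff P hg n).1 h

theorem OrdGe_self (f : KL l) : OrdGe P (ord P f) f := Or.inr le_rfl

theorem OrdGe_pow {n : ℤ} {f : KL l} (h : OrdGe P n f) (k : ℕ) : OrdGe P (k * n) (f ^ k) := by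
  induction k with
  | zero =>
    rw [pow_zero]
    right
    rw [ord_one]
    simp
  | succ k ih =>
    rw [pow_succ]
    have h1 := ih.mul h
    refine h1.mono (le_of_eq ?_)
    push_cast
    ring

theorem ord_zpow {f : KL l} (hf : f ≠ 0) (n : ℤ) : ord P (f ^ n) = n * ord P f := by
  obtain ⟨k, rfl | rfl⟩ := n.eq_nat_or_neg
  · rw [zpow_natCast, ord_pow]
  · rw [zpow_neg, zpow_natCast, ord_inv, ord_pow]
    ring

theorem exists_ord_eq (n : ℤ) : ∃ t : KL l, t ≠ 0 ∧ ord P t = n := by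
  obtain ⟨t, ht, h1⟩ := exists_unif P
  exact ⟨t ^ n, zpow_ne_zero n ht, by rw [ord_zpow P ht, h1, mul_one]⟩

theorem OrdGe_two_mul {n : ℤ} {f : KL l} (h : OrdGe P n f) : OrdGe P n (2 * f) := by
  rw [two_mul]
  exact h.add h

instance charZeroK : CharZero (KL l) :=
  charZero_of_injective_algebraMap (FaithfulSMul.algebraMap_injective Ω (KL l))

theorem ord_two_mul {f : KL l} (hf : f ≠ 0) : ord P (2 * f) = ord P f := by
  have h1 : (2 : KL l) = algebraMap Ω (KL l) 2 := by rw [map_ofNat]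
  rw [h1, ord_mul P (by rw [← h1]; exact two_ne_zero) hf, ord_const, zero_add]

end Basic

section Minors

variable {Ω : Type} [Field Ω] {l : Ω}

/-- The minors of `(v, E v)`. -/
noncomputable def AA (v : Fin 3 → K l) (E : Derivation ℤ (K l) (K l)) (i j : Fin 3) : K l :=
  v i * E (v j) - v j * E (v i)

/-- The minors of `(v, w)` and `(E v, E w)` (twisted by the square root of `x`). -/
noncomputable def BB (v : Fin 3 → K l) (w : K l) (E : Derivation ℤ (K l) (K l)) (i : Fin 3) : K l :=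
  v i * (E w + E (EllFF.xK l) / (2 * EllFF.xK l) * w) - 2 * w * E (v i)

/-- The determinant of three vectors. -/
noncomputable def det3 (v a b : Fin 3 → K l) : K l :=
  v 0 * (a 1 * b 2 - a 2 * b 1) - v 1 * (a 0 * b 2 - a 2 * b 0) + v 2 * (a 0 * b 1 - a 1 * b 0)

/-- The wedge. -/
noncomputable def hh (v : Fin 3 → K l) (w : K l) (E1 E2 : Derivation ℤ (K l) (K l)) : K l :=
  det3 v (fun i => E1 (v i)) (fun i => E2 (v i)) / w

theorem det_id (v : Fin 3 → K l) (E1 E2 : Derivation ℤ (K l) (K l)) (j k i : Fin 3) (hjk : j ≠ k)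
    (hji : j ≠ i) (hki : k ≠ i) : ∃ σ : K l, (σ = 1 ∨ σ = -1) ∧
    v j * det3 v (fun i => E1 (v i)) (fun i => E2 (v i)) =
      σ * (AA v E1 j i * AA v E2 j k - AA v E1 j k * AA v E2 j i) := by
  simp only [AA, det3]
  fin_cases j <;> fin_cases k <;> fin_cases i <;> simp_all <;>
  first
  | (left; ring1)
  | (right; ring1)

theorem quart_id (v : Fin 3 → K l) (j k i : Fin 3) (hjk : j ≠ k)
    (hji : j ≠ i) (hki : k ≠ i) : quart v = v j ^ 4 + (v k ^ 4 + v i ^ 4) := by
  simp only [quart]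
  fin_cases j <;> fin_cases k <;> fin_cases i <;> simp_all <;> ring

theorem sum_three {A : Type*} [CommRing A] (g : Fin 3 → A) (j k i : Fin 3) (hjk : j ≠ k)
    (hji : j ≠ i) (hki : k ≠ i) : ∑ i, g i = g j + g k + g i := by
  rw [Fin.sum_univ_three]
  fin_cases j <;> fin_cases k <;> fin_cases i <;> first | exact absurd rfl hjk | exact absurd rfl hji | exact absurd rfl hki | rfl | (simp only [Fin.zero_eta, Fin.mk_one, Fin.reduceFinMk]; ring1)

theorem third (j k : Fin 3) (h : j ≠ k) : ∃ i, j ≠ i ∧ k ≠ i := by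
  fin_cases j <;> fin_cases k <;> simp_all <;> decide

theorem second (j : Fin 3) : ∃ k i : Fin 3, j ≠ k ∧ j ≠ i ∧ k ≠ i := by
  fin_cases j <;> decide

end Minors

section Local

variable {Ω : Type} [Field Ω] [IsAlgClosed Ω] [CharZero Ω] {l : Ω} [Leg l]

/-- A nonzero solution with `w` nonzero, and the half orders of `x`. -/
structure Frame (v : Fin 3 → K l) (w : K l) (e : Place l → ℤ) : Prop where
  hv : v ≠ 0
  hw : w ≠ 0
  eq : EllFF.xK l * w ^ 2 = quart v
  he : ∀ P, ord P (EllFF.xK l) = 2 * e P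

variable {v : Fin 3 → K l} {w : K l} {e : Place l → ℤ}

/-- The order of a derivation along the solution at the place `P` is at least `n`. -/
def RGe (v : Fin 3 → K l) (w : K l) (e : Place l → ℤ) (P : Place l) (n : ℤ)
    (E : Derivation ℤ (K l) (K l)) : Prop :=
  (∀ i j, OrdGe P (2 * mord P v + n) (AA v E i j)) ∧
    ∀ i, OrdGe P (3 * mord P v - e P + n) (BB v w E i)

theorem star (hF : Frame v w e) (E : Derivation ℤ (K l) (K l)) (j : Fin 3) :
    ∑ i, 2 * v i ^ 3 * AA v E j i = EllFF.xK l * w * BB v w E j := by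
  have hx : EllFF.xK l ≠ 0 := xK_ne_zero
  have h1 := congrArg E hF.eq
  simp only [quart, map_add, Derivation.leibniz, Derivation.leibniz_pow, smul_eq_mul, nsmul_eq_mul] at h1
  have h2 := hF.eq
  simp only [quart] at h2
  rw [Fin.sum_univ_three]
  simp only [AA, BB]
  have h3 : EllFF.xK l * w * (v j * (E w + E (EllFF.xK l) / (2 * EllFF.xK l) * w) - 2 * w * E (v j)) =
      v j * (EllFF.xK l * w * E w + E (EllFF.xK l) * w ^ 2 / 2) - 2 * (EllFF.xK l * w ^ 2) * E (v j) := by
    field_simp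
  rw [h3, h2]
  push_cast at h1
  linear_combination (-(v j) / 2) * h1

theorem quart_ordGe (hv : v ≠ 0) (P : Place l) : OrdGe P (4 * mord P v) (quart v) := by
  have h1 : ∀ i, OrdGe P (4 * mord P v) (v i ^ 4) := fun i => OrdGe_pow P (mord_ordGe P hv i) 4
  exact ((h1 0).add (h1 1)).add (h1 2)

theorem w_ord (hF : Frame v w e) (P : Place l) : 2 * mord P v - e P ≤ ord P w := by
  have hx : EllFF.xK l ≠ 0 := xK_ne_zero
  have h1 := quart_ordGe hF.hv P
  rw [← hF.eq] at h1
  have h2 := h1.le (mul_ne_zero hx (pow_ne_zero 2 hF.hw))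
  rw [ord_mul P hx (pow_ne_zero 2 hF.hw), ord_pow, hF.he] at h2
  push_cast at h2
  omega

/-- The wedge lemma. -/
theorem wedge (hF : Frame v w e) (P : Place l) {n1 n2 : ℤ} {E1 E2 : Derivation ℤ (K l) (K l)}
    (h1 : RGe v w e P n1 E1) (h2 : RGe v w e P n2 E2) :
    OrdGe P (mord P v + e P + n1 + n2) (hh v w E1 E2) := by
  have hx : EllFF.xK l ≠ 0 := xK_ne_zero
  obtain ⟨j, hj0, hj⟩ := mord_attained P hF.hv
  by_cases hk : ∃ k, k ≠ j ∧ v k ≠ 0 ∧ ord P (v k) = mord P v
  · obtain ⟨k, hkj, hk0, hk⟩ := hk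
    obtain ⟨i, hji, hki⟩ := third j k hkj.symm
    obtain ⟨σ, hσ, hdet⟩ := det_id v E1 E2 j k i hkj.symm hji hki
    have hs1 := star hF E1 j
    have hs2 := star hF E2 j
    have hsum : ∀ E, ∑ i, 2 * v i ^ 3 * AA v E j i =
        2 * v k ^ 3 * AA v E j k + 2 * v i ^ 3 * AA v E j i := by
      intro E
      have hjj : AA v E j j = 0 := by simp only [AA]; ring
      rw [sum_three (fun i => 2 * v i ^ 3 * AA v E j i) j k i hkj.symm hji hki, hjj]
      ring
    rw [hsum] at hs1 hs2
    have hkey : (2 * v k ^ 3 * v j) * hh v w E1 E2 =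
        σ * (EllFF.xK l * (AA v E1 j i * BB v w E2 j - BB v w E1 j * AA v E2 j i)) := by
      have hw := hF.hw
      have e1 : (2 * v k ^ 3 * v j) * hh v w E1 E2 = 2 * v k ^ 3 *
          (v j * det3 v (fun i => E1 (v i)) (fun i => E2 (v i))) / w := by
        rw [hh]
        ring
      rw [e1, hdet, div_eq_iff hw]
      linear_combination (-σ * AA v E2 j i) * hs1 + (σ * AA v E1 j i) * hs2
    have hR : OrdGe P (5 * mord P v + e P + n1 + n2)
        (σ * (EllFF.xK l * (AA v E1 j i * BB v w E2 j - BB v w E1 j * AA v E2 j i))) := by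
      have a1 := ((h1.1 j i).mul (h2.2 j))
      have a2 := ((h1.2 j).mul (h2.1 j i))
      have a3 : OrdGe P (5 * mord P v - e P + n1 + n2)
          (AA v E1 j i * BB v w E2 j - BB v w E1 j * AA v E2 j i) :=
        (a1.mono (by linarith)).sub (a2.mono (by linarith))
      have a4 := (OrdGe_self P (EllFF.xK l)).mul a3
      rw [hF.he] at a4
      have a5 := a4.mono (show 5 * mord P v + e P + n1 + n2 ≤ _ by linarith)
      rcases hσ with rfl | rfl
      · rwa [one_mul]
      · rw [neg_one_mul]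
        exact a5.neg
    rw [← hkey] at hR
    refine OrdGe_of_mul P (mul_ne_zero (mul_ne_zero two_ne_zero (pow_ne_zero 3 hk0)) hj0) hR ?_
    rw [ord_mul P (mul_ne_zero two_ne_zero (pow_ne_zero 3 hk0)) hj0, ord_two_mul P (pow_ne_zero 3 hk0),
      ord_pow, hk, hj]
    push_cast
    ring
  · obtain ⟨k, i, hjk, hji, hki⟩ := second j
    have hlt : ∀ a, a ≠ j → OrdGe P (mord P v + 1) (v a) := by
      intro a ha
      by_cases ha0 : v a = 0
      · exact Or.inl ha0
      right
      have b1 := (mord_ordGe P hF.hv a).le ha0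
      have b2 : ord P (v a) ≠ mord P v := fun h => hk ⟨a, ha, ha0, h⟩
      omega
    obtain ⟨σ, hσ, hdet⟩ := det_id v E1 E2 j k i hjk hji hki
    have hq := quart_id v j k i hjk hji hki
    have hrest : OrdGe P (ord P (v j ^ 4) + 1) (v k ^ 4 + v i ^ 4) := by
      have b1 := OrdGe_pow P (hlt k hjk.symm) 4
      have b2 := OrdGe_pow P (hlt i hji.symm) 4
      have b3 := b1.add b2
      refine b3.mono ?_
      rw [ord_pow, hj]
      push_cast
      linarith
    obtain ⟨-, hq2⟩ := ord_add_eq P (pow_ne_zero 4 hj0) hrest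
    rw [← hq, ← hF.eq, ord_mul P hx (pow_ne_zero 2 hF.hw), ord_pow, ord_pow, hF.he, hj] at hq2
    have hw : ord P w = 2 * mord P v - e P := by
      push_cast at hq2
      linarith
    have hR : OrdGe P (4 * mord P v + n1 + n2)
        (v j * det3 v (fun i => E1 (v i)) (fun i => E2 (v i))) := by
      rw [hdet]
      have a1 := ((h1.1 j i).mul (h2.1 j k))
      have a2 := ((h1.1 j k).mul (h2.1 j i))
      have a3 : OrdGe P (4 * mord P v + n1 + n2)
          (AA v E1 j i * AA v E2 j k - AA v E1 j k * AA v E2 j i) :=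
        (a1.mono (by linarith)).sub (a2.mono (by linarith))
      rcases hσ with rfl | rfl
      · rwa [one_mul]
      · rw [neg_one_mul]
        exact a3.neg
    have h3 : v j * det3 v (fun i => E1 (v i)) (fun i => E2 (v i)) = (v j * w) * hh v w E1 E2 := by
      rw [hh]
      field_simp [hF.hw]
    rw [h3] at hR
    refine OrdGe_of_mul P (mul_ne_zero hj0 hF.hw) hR ?_
    rw [ord_mul P hj0 hF.hw, hj, hw]
    ring

end Local

end Pool.Agent.Lib.MP_8ae0c1_ag
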