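import Pool.Agent.Lib.MP_8ae0c1_ag.Kern

set_option autoImplicit false
set_option linter.unusedSectionVars false

namespace Pool.Agent.Lib.MP_8ae0c1_ag

open Polynomial EllFF

variable {Ω : Type} [Field Ω] [IsAlgClosed Ω] [CharZero Ω] {l : Ω} [Leg l]
  {v : Fin 3 → K l} {w : K l} {e : Place l → ℤ}

/-- The order of the derivation `E` along the solution. -/
noncomputable def zeta (v : Fin 3 → K l) (w : K l) (e : Place l → ℤ)
    (E : Derivation ℤ (K l) (K l)) (P : Place l) : ℤ := sSup {n : ℤ | RGe v w e P n E}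

theorem RGe.mono {P : Place l} {n m : ℤ} {E : Derivation ℤ (K l) (K l)} (h : RGe v w e P n E)
    (hm : m ≤ n) : RGe v w e P m E :=
  ⟨fun i j => (h.1 i j).mono (by linarith), fun i => (h.2 i).mono (by linarith)⟩

theorem RGe.add {P : Place l} {n : ℤ} {E1 E2 : Derivation ℤ (K l) (K l)} (h1 : RGe v w e P n E1)
    (h2 : RGe v w e P n E2) : RGe v w e P n (E1 + E2) :=
  ⟨fun i j => by rw [AA_add]; exact (h1.1 i j).add (h2.1 i j),
    fun i => by rw [BB_add]; exact (h1.2 i).add (h2.2 i)⟩

theorem RGe.smul {P : Place l} {n k : ℤ} {E : Derivation ℤ (K l) (K l)} (h : RGe v w e P n E)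
    {c : K l} (hc : OrdGe P k c) : RGe v w e P (k + n) (c • E) :=
  ⟨fun i j => by rw [AA_smul]; exact (hc.mul (h.1 i j)).mono (by linarith),
    fun i => by rw [BB_smul]; exact (hc.mul (h.2 i)).mono (by linarith)⟩

theorem zeta_bdd (P : Place l) {E : Derivation ℤ (K l) (K l)} {a b : Fin 3} (hab : AA v E a b ≠ 0) :
    ∀ n, RGe v w e P n E → n ≤ ord P (AA v E a b) - 2 * mord P v := by
  intro n hn
  have h1 := (hn.1 a b).le hab
  linarith

theorem zeta_ge {P : Place l} {E : Derivation ℤ (K l) (K l)} {a b : Fin 3} (hab : AA v E a b ≠ 0)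
    {n : ℤ} (h : RGe v w e P n E) : n ≤ zeta v w e E P :=
  le_csSup ⟨_, fun n hn => zeta_bdd P hab n hn⟩ h

theorem zeta_RGe {P : Place l} {E : Derivation ℤ (K l) (K l)} {a b : Fin 3} (hab : AA v E a b ≠ 0)
    {n : ℤ} (h : RGe v w e P n E) : RGe v w e P (zeta v w e E P) E :=
  Int.csSup_mem ⟨n, h⟩ ⟨_, fun n hn => zeta_bdd P hab n hn⟩

theorem zeta_le {P : Place l} {E : Derivation ℤ (K l) (K l)} {a b : Fin 3} (hab : AA v E a b ≠ 0)
    {n : ℤ} (h : RGe v w e P n E) : zeta v w e E P ≤ ord P (AA v E a b) - 2 * mord P v :=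
  zeta_bdd P hab _ (zeta_RGe hab h)

/-- The order of a multiple. -/
theorem ordGe_of_RGe {P : Place l} {E1 E2 : Derivation ℤ (K l) (K l)} {a b : Fin 3}
    (hab : AA v E2 a b ≠ 0) {c : K l} (hA : ∀ i j, AA v E1 i j = c * AA v E2 i j)
    (hB : ∀ i, BB v w E1 i = c * BB v w E2 i) {n : ℤ} (h : RGe v w e P n E1) :
    OrdGe P (n - zeta v w e E2 P) c := by
  by_cases hc : c = 0
  · exact Or.inl hc
  right
  have h1 : RGe v w e P (n - ord P c) E2 := by
    constructor
    · intro i j
      have h2 := h.1 i j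
      rw [hA] at h2
      exact OrdGe_of_mul P hc h2 (by ring)
    · intro i
      have h2 := h.2 i
      rw [hB] at h2
      exact OrdGe_of_mul P hc h2 (by ring)
  have h3 := zeta_ge hab h1
  linarith

theorem mord_support {v : Fin 3 → K l} (hv : v ≠ 0) :
    (Function.support fun P : Place l => mord P v).Finite := by
  have h1 : (⋃ i : Fin 3, {P : Place l | v i ≠ 0 ∧ ord P (v i) ≠ 0}).Finite := by
    refine Set.finite_iUnion fun i => ?_
    by_cases hi : v i = 0
    · have : {P : Place l | v i ≠ 0 ∧ ord P (v i) ≠ 0} = ∅ := by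
        ext P
        simp [hi]
      rw [this]
      exact Set.finite_empty
    · exact (ord_support hi).subset fun P hP => hP.2
  refine h1.subset fun P hP => ?_
  obtain ⟨i, hi, hi2⟩ := mord_attained P hv
  rw [Set.mem_iUnion]
  exact ⟨i, hi, by rw [hi2]; exact hP⟩

theorem e_support (hF : Frame v w e) : (Function.support e).Finite := by
  have hx : EllFF.xK l ≠ 0 := xK_ne_zero
  refine (ord_support hx).subset fun P hP => ?_
  rw [Function.mem_support] at hP ⊢
  rw [hF.he]
  omega

theorem e_sum (hF : Frame v w e) : ∑ᶠ P, e P = 0 := by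
  have hx : EllFF.xK l ≠ 0 := xK_ne_zero
  have h1 := ord_sum hx
  simp only [hF.he] at h1
  rw [← mul_finsum e 2] at h1
  omega

theorem zeta_support (hF : Frame v w e) {E : Derivation ℤ (K l) (K l)} {a b : Fin 3}
    (hab : AA v E a b ≠ 0) (h : ∀ P, RGe v w e P 0 E) :
    (Function.support (zeta v w e E)).Finite := by
  refine ((ord_support hab).union (mord_support hF.hv)).subset fun P hP => ?_
  rw [Function.mem_support] at hP
  by_contra hne
  rw [Set.mem_union, not_or, Function.notMem_support, Function.notMem_support] at hne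
  have h1 := zeta_ge hab (h P)
  have h2 := zeta_le hab (h P)
  rw [hne.1, hne.2] at h2
  omega

end Pool.Agent.Lib.MP_8ae0c1_ag
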